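import Mathlib

set_option autoImplicit false

open MeasureTheory

namespace Pool.Agent.H198Z.Landis

abbrev E4 := EuclideanSpace ℝ (Fin 4)

noncomputable def ev (i : Fin 4) : E4 := EuclideanSpace.single i (1 : ℝ)

/-- Partial derivative. -/
noncomputable def D (i : Fin 4) (g : E4 → ℝ) : E4 → ℝ := fun x => fderiv ℝ g x (ev i)

/-- Laplacian. -/
noncomputable def Lap (g : E4 → ℝ) : E4 → ℝ := fun x => ∑ i, D i (D i g) x

theorem contDiff_D {g : E4 → ℝ} (hg : ContDiff ℝ 2 g) (i : Fin 4) : ContDiff ℝ 1 (D i g) :=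
  (hg.fderiv_right (m := 1) (by norm_num)).clm_apply contDiff_const

theorem diff2 {g : E4 → ℝ} (hg : ContDiff ℝ 2 g) : Differentiable ℝ g :=
  hg.differentiable (by norm_num)

theorem diffD {g : E4 → ℝ} (hg : ContDiff ℝ 2 g) (i : Fin 4) : Differentiable ℝ (D i g) :=
  (contDiff_D hg i).differentiable (by norm_num)

theorem cont_D1 {g : E4 → ℝ} (hg : ContDiff ℝ 1 g) (i : Fin 4) : Continuous (D i g) :=
  (hg.continuous_fderiv (by norm_num)).clm_apply continuous_const

theorem cont_DD {g : E4 → ℝ} (hg : ContDiff ℝ 2 g) (i : Fin 4) : Continuous (D i (D i g)) :=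
  cont_D1 (contDiff_D hg i) i

theorem cont_Lap {g : E4 → ℝ} (hg : ContDiff ℝ 2 g) : Continuous (Lap g) := by
  unfold Lap
  exact continuous_finsetSum _ fun i _ => cont_DD hg i

theorem supp_D {g : E4 → ℝ} (hg : HasCompactSupport g) (i : Fin 4) : HasCompactSupport (D i g) :=
  hg.fderiv_apply (𝕜 := ℝ) (ev i)

theorem supp_Lap {g : E4 → ℝ} (hg : HasCompactSupport g) : HasCompactSupport (Lap g) := by
  unfold Lap
  have : (fun x => ∑ i, D i (D i g) x) = ∑ i, D i (D i g) := by ext x; simp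
  rw [this]
  exact HasCompactSupport.finset_sum fun i _ => supp_D (supp_D hg i) i

theorem iter_eq {φ : E4 → ℝ} (hφ : ContDiff ℝ 2 φ) (x : E4) :
    ∑ i : Fin 4, iteratedFDeriv ℝ 2 φ x (fun _ => EuclideanSpace.single i (1 : ℝ)) = Lap φ x := by
  unfold Lap
  refine Finset.sum_congr rfl fun i _ => ?_
  rw [iteratedFDeriv_two_apply]
  have h1 : Differentiable ℝ (fderiv ℝ φ) :=
    (hφ.fderiv_right (m := 1) (by norm_num)).differentiable (by norm_num)
  unfold D
  rw [fderiv_clm_apply (h1 x) (differentiableAt_const _)]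
  simp [ev]

theorem D_congr {f g : E4 → ℝ} {x : E4} (h : f =ᶠ[nhds x] g) (i : Fin 4) :
    D i f =ᶠ[nhds x] D i g := by
  filter_upwards [h.fderiv (𝕜 := ℝ)] with y hy
  simp [D, hy]

theorem Lap_congr {f g : E4 → ℝ} {x : E4} (h : f =ᶠ[nhds x] g) : Lap f x = Lap g x := by
  unfold Lap
  exact Finset.sum_congr rfl fun i _ => (D_congr (D_congr h i) i).eq_of_nhds

theorem D_const (c : ℝ) (i : Fin 4) : D i (fun _ => c) = fun _ => 0 := by
  ext x; simp [D]

theorem Lap_const (c : ℝ) (x : E4) : Lap (fun _ => c) x = 0 := by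
  simp [Lap, D_const]

theorem D_add {f g : E4 → ℝ} (hf : Differentiable ℝ f) (hg : Differentiable ℝ g) (i : Fin 4) :
    D i (fun x => f x + g x) = fun x => D i f x + D i g x := by
  ext x
  simp only [D]
  rw [fderiv_fun_add (hf x) (hg x)]
  simp

theorem D_mul {f g : E4 → ℝ} (hf : Differentiable ℝ f) (hg : Differentiable ℝ g) (i : Fin 4) :
    D i (fun x => f x * g x) = fun x => D i f x * g x + f x * D i g x := by
  ext x
  simp only [D]
  rw [fderiv_fun_mul (hf x) (hg x)]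
  simp; ring

theorem D_comp {τ τ1 : ℝ → ℝ} (hτ : ∀ t, HasDerivAt τ (τ1 t) t) {g : E4 → ℝ}
    (hg : Differentiable ℝ g) (i : Fin 4) :
    D i (fun x => τ (g x)) = fun x => τ1 (g x) * D i g x := by
  ext x
  simp only [D]
  have := ((hτ (g x)).comp_hasFDerivAt x (hg x).hasFDerivAt).fderiv
  have h2 : (fun x => τ (g x)) = τ ∘ g := rfl
  rw [h2, this]
  simp

theorem D_sum {ι : Type*} (s : Finset ι) {f : ι → E4 → ℝ} (hf : ∀ j ∈ s, Differentiable ℝ (f j))
    (i : Fin 4) : D i (fun x => ∑ j ∈ s, f j x) = fun x => ∑ j ∈ s, D i (f j) x := by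
  ext x
  simp only [D]
  rw [fderiv_fun_sum (fun j hj => hf j hj x)]
  simp

theorem DD_mul {f g : E4 → ℝ} (hf : ContDiff ℝ 2 f) (hg : ContDiff ℝ 2 g) (i : Fin 4) (x : E4) :
    D i (D i (fun x => f x * g x)) x =
      D i (D i f) x * g x + 2 * (D i f x * D i g x) + f x * D i (D i g) x := by
  rw [D_mul (diff2 hf) (diff2 hg), 
    D_add ((diffD hf i).fun_mul (diff2 hg)) ((diff2 hf).fun_mul (diffD hg i)),
    D_mul (diffD hf i) (diff2 hg), D_mul (diff2 hf) (diffD hg i)]
  ring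

theorem DD_comp {τ τ1 τ2 : ℝ → ℝ} (hτ : ∀ t, HasDerivAt τ (τ1 t) t)
    (hτ1 : ∀ t, HasDerivAt τ1 (τ2 t) t) {g : E4 → ℝ} (hg : ContDiff ℝ 2 g) (i : Fin 4) (x : E4) :
    D i (D i (fun x => τ (g x))) x = τ2 (g x) * (D i g x) ^ 2 + τ1 (g x) * D i (D i g) x := by
  have h1 : Differentiable ℝ (fun x => τ1 (g x)) := fun x =>
    ((hτ1 (g x)).comp_hasFDerivAt x (diff2 hg x).hasFDerivAt).differentiableAt
  rw [D_comp hτ (diff2 hg), D_mul h1 (diffD hg i), D_comp hτ1 (diff2 hg)]
  ring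

theorem Lap_add {f g : E4 → ℝ} (hf : ContDiff ℝ 2 f) (hg : ContDiff ℝ 2 g) (x : E4) :
    Lap (fun x => f x + g x) x = Lap f x + Lap g x := by
  unfold Lap
  rw [← Finset.sum_add_distrib]
  refine Finset.sum_congr rfl fun i _ => ?_
  rw [D_add (diff2 hf) (diff2 hg), D_add (diffD hf i) (diffD hg i)]

theorem Lap_sum {ι : Type*} (s : Finset ι) {f : ι → E4 → ℝ} (hf : ∀ j ∈ s, ContDiff ℝ 2 (f j))
    (x : E4) : Lap (fun x => ∑ j ∈ s, f j x) x = ∑ j ∈ s, Lap (f j) x := by
  unfold Lap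
  rw [Finset.sum_comm]
  refine Finset.sum_congr rfl fun i _ => ?_
  rw [D_sum s (fun j hj => diff2 (hf j hj)), D_sum s (fun j hj => diffD (hf j hj) i)]

theorem contDiff_of_derivs {τ τ1 τ2 : ℝ → ℝ} (hτ : ∀ t, HasDerivAt τ (τ1 t) t)
    (hτ1 : ∀ t, HasDerivAt τ1 (τ2 t) t) (hc : Continuous τ2) : ContDiff ℝ 2 τ := by
  have e1 : deriv τ = τ1 := funext fun t => (hτ t).deriv
  have e2 : deriv τ1 = τ2 := funext fun t => (hτ1 t).deriv
  have : (2 : WithTop ℕ∞) = 1 + 1 := by norm_num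
  rw [this, contDiff_succ_iff_deriv]
  refine ⟨fun t => (hτ t).differentiableAt, by simp, ?_⟩
  rw [e1, contDiff_one_iff_deriv, e2]
  exact ⟨fun t => (hτ1 t).differentiableAt, hc⟩

/-- integration by parts when the second function has compact support -/
theorem ibp {f g : E4 → ℝ} (hf : ContDiff ℝ 1 f) (hg : ContDiff ℝ 1 g) (hc : HasCompactSupport g)
    (i : Fin 4) : ∫ x, f x * D i g x = - ∫ x, D i f x * g x := by
  refine integral_mul_fderiv_eq_neg_fderiv_mul_of_integrable ?_ ?_ ?_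
    (fun x _ => hf.differentiable (by norm_num) x) (fun x _ => hg.differentiable (by norm_num) x)
  · exact ((cont_D1 hf i).mul hg.continuous).integrable_of_hasCompactSupport hc.mul_left
  · exact (hf.continuous.mul (cont_D1 hg i)).integrable_of_hasCompactSupport (supp_D hc i).mul_left
  · exact (hf.continuous.mul hg.continuous).integrable_of_hasCompactSupport hc.mul_left

theorem green {u φ : E4 → ℝ} (hu : ContDiff ℝ 2 u) (hφ : ContDiff ℝ 2 φ)
    (hc : HasCompactSupport φ) : ∫ x, u x * Lap φ x = ∫ x, Lap u x * φ x := by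
  unfold Lap
  simp only [Finset.mul_sum, Finset.sum_mul]
  rw [integral_finsetSum, integral_finsetSum]
  · refine Finset.sum_congr rfl fun i _ => ?_
    rw [ibp (hu.of_le (by norm_num)) (contDiff_D hφ i) (supp_D hc i),
      ibp (contDiff_D hu i) (hφ.of_le (by norm_num)) hc, neg_neg]
  · intro i _
    exact ((cont_DD hu i).mul hφ.continuous).integrable_of_hasCompactSupport hc.mul_left
  · intro i _
    exact (hu.continuous.mul (cont_DD hφ i)).integrable_of_hasCompactSupport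
      (supp_D (supp_D hc i) i).mul_left

theorem fderiv_apply_eq (g : E4 → ℝ) (x v : E4) : fderiv ℝ g x v = ∑ i, v i * D i g x := by
  have : v = ∑ i, v i • ev i := by
    ext j
    simp [ev, Finset.sum_apply, Pi.single_apply]
  conv_lhs => rw [this]
  simp [D, map_sum]

theorem normsq_eq (x : E4) : ‖x‖ ^ 2 = ∑ i, x i ^ 2 := by
  rw [EuclideanSpace.norm_sq_eq]; simp

theorem D_normsq (i : Fin 4) : D i (fun x : E4 => ‖x‖ ^ 2) = fun x => 2 * x i := by
  ext x
  simp only [D]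
  rw [(hasStrictFDerivAt_norm_sq x).hasFDerivAt.fderiv]
  simp [ev, EuclideanSpace.inner_single_right]

theorem D_coord (i j : Fin 4) : D i (fun x : E4 => x j) = fun _ => if i = j then 1 else 0 := by
  ext x
  simp only [D]
  have : (fun x : E4 => x j) = (EuclideanSpace.proj j : E4 →L[ℝ] ℝ) := rfl
  rw [this, ContinuousLinearMap.fderiv]
  simp [ev, eq_comm]

theorem contDiff_coord (j : Fin 4) : ContDiff ℝ 2 (fun x : E4 => x j) :=
  (EuclideanSpace.proj j : E4 →L[ℝ] ℝ).contDiff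

theorem lip_of_D {g : E4 → ℝ} (hg : Differentiable ℝ g) {c : ℝ} (h : ∀ i x, |D i g x| ≤ c)
    (x y : E4) : |g y - g x| ≤ 4 * c * ‖y - x‖ := by
  have hc : 0 ≤ c := (abs_nonneg _).trans (h 0 0)
  have hb : ∀ z ∈ (Set.univ : Set E4), ‖fderiv ℝ g z‖ ≤ 4 * c := by
    intro z _
    refine ContinuousLinearMap.opNorm_le_bound _ (by positivity) fun v => ?_
    rw [fderiv_apply_eq, Real.norm_eq_abs]
    calc |∑ i, v i * D i g z| ≤ ∑ i, |v i * D i g z| := Finset.abs_sum_le_sum_abs _ _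
      _ ≤ ∑ _i : Fin 4, ‖v‖ * c := by
        refine Finset.sum_le_sum fun i _ => ?_
        rw [abs_mul]
        exact mul_le_mul (by simpa using PiLp.norm_apply_le v i) (h i z) (abs_nonneg _)
          (norm_nonneg _)
      _ = 4 * c * ‖v‖ := by simp; ring
  simpa using convex_univ.norm_image_sub_le_of_norm_fderiv_le (fun z _ => hg z) hb
    (Set.mem_univ x) (Set.mem_univ y)

end Pool.Agent.H198Z.Landis
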