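import Pool.Agent.H198Z.Landis.A

set_option autoImplicit false

open MeasureTheory Set

namespace Pool.Agent.H198Z.Landis

theorem hasDerivAt_cube (t : ℝ) :
    HasDerivAt (fun t : ℝ => max t 0 ^ 3) (3 * max t 0 ^ 2) t := by
  rcases lt_trichotomy t 0 with h | h | h
  · have : (fun t : ℝ => max t 0 ^ 3) =ᶠ[nhds t] fun _ => 0 := by
      filter_upwards [Iio_mem_nhds h] with y hy
      simp [max_eq_right (le_of_lt (mem_Iio.1 hy))]
    rw [max_eq_right h.le]
    simpa using (hasDerivAt_const t (0 : ℝ)).congr_of_eventuallyEq this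
  · subst h
    rw [hasDerivAt_iff_isLittleO_nhds_zero]
    simp only [zero_add, max_self, ne_eq, OfNat.ofNat_ne_zero, not_false_eq_true, zero_pow,
      sub_zero, mul_zero, smul_zero]
    have h1 : (fun h : ℝ => max h 0 ^ 3) =O[nhds 0] fun h => h ^ 3 := by
      refine Asymptotics.IsBigO.of_bound 1 (Filter.Eventually.of_forall fun y => ?_)
      rw [one_mul, norm_pow, norm_pow]
      gcongr
      rcases le_total y 0 with h | h
      · simp [max_eq_right h]
      · simp [max_eq_left h]
    exact h1.trans_isLittleO (Asymptotics.isLittleO_pow_id (by norm_num))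
  · have : (fun t : ℝ => max t 0 ^ 3) =ᶠ[nhds t] fun y => y ^ 3 := by
      filter_upwards [Ioi_mem_nhds h] with y hy
      simp [max_eq_left (le_of_lt (mem_Ioi.1 hy))]
    rw [max_eq_left h.le]
    simpa using (hasDerivAt_pow 3 t).congr_of_eventuallyEq this

noncomputable def rho0 (z : E4) : ℝ := max (1 - ‖z‖ ^ 2) 0 ^ 2
noncomputable def h0 (z : E4) : ℝ := max (1 - ‖z‖ ^ 2) 0 ^ 3 / 6

theorem rho0_cont : Continuous rho0 := by unfold rho0; fun_prop
theorem h0_cont : Continuous h0 := by unfold h0; fun_prop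
theorem rho0_nonneg (z : E4) : 0 ≤ rho0 z := by unfold rho0; positivity
theorem h0_nonneg (z : E4) : 0 ≤ h0 z := by unfold h0; positivity

theorem max_zero_of {z : E4} (h : 1 < ‖z‖) : max (1 - ‖z‖ ^ 2) 0 = 0 :=
  max_eq_right (by nlinarith)

theorem rho0_zero {z : E4} (h : 1 < ‖z‖) : rho0 z = 0 := by simp [rho0, max_zero_of h]
theorem h0_zero {z : E4} (h : 1 < ‖z‖) : h0 z = 0 := by simp [h0, max_zero_of h]

theorem max_le_one' (z : E4) : max (1 - ‖z‖ ^ 2) 0 ≤ 1 :=
  max_le (by nlinarith [sq_nonneg ‖z‖]) zero_le_one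

theorem rho0_le (z : E4) : rho0 z ≤ 1 := pow_le_one₀ (le_max_right _ _) (max_le_one' z)

theorem h0_le (z : E4) : h0 z ≤ rho0 z / 6 := by
  unfold h0 rho0
  have h1 := max_le_one' z
  have h2 : 0 ≤ max (1 - ‖z‖ ^ 2) 0 := le_max_right _ _
  have : max (1 - ‖z‖ ^ 2) 0 ^ 3 ≤ max (1 - ‖z‖ ^ 2) 0 ^ 2 := pow_le_pow_of_le_one h2 h1 (by norm_num)
  linarith

theorem supp_of_ball {g : E4 → ℝ} (h : ∀ z, 1 < ‖z‖ → g z = 0) : HasCompactSupport g :=
  HasCompactSupport.intro (isCompact_closedBall (0 : E4) 1) fun z hz => h z (by simpa using hz)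

theorem rho0_supp : HasCompactSupport rho0 := supp_of_ball fun _ => rho0_zero
theorem h0_supp : HasCompactSupport h0 := supp_of_ball fun _ => h0_zero
theorem rho0_int : Integrable rho0 := rho0_cont.integrable_of_hasCompactSupport rho0_supp
theorem h0_int : Integrable h0 := h0_cont.integrable_of_hasCompactSupport h0_supp

theorem hd_aux (t : ℝ) :
    HasDerivAt (fun t : ℝ => max (1 - t) 0 ^ 3 / 6) (-(max (1 - t) 0 ^ 2) / 2) t := by
  have := ((hasDerivAt_cube (1 - t)).comp t ((hasDerivAt_id t).const_sub 1)).div_const 6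
  have e : -(max (1 - t) 0 ^ 2) / 2 = 3 * max (1 - t) 0 ^ 2 * -1 / 6 := by ring
  rw [e]
  exact this

theorem h0_contDiff : ContDiff ℝ 1 h0 := by
  have h1 : ContDiff ℝ 1 (fun t : ℝ => max (1 - t) 0 ^ 3 / 6) := by
    rw [contDiff_one_iff_deriv]
    refine ⟨fun t => (hd_aux t).differentiableAt, ?_⟩
    have : deriv (fun t : ℝ => max (1 - t) 0 ^ 3 / 6) = fun t => -(max (1 - t) 0 ^ 2) / 2 :=
      funext fun t => (hd_aux t).deriv
    rw [this]; fun_prop
  exact h1.comp (contDiff_norm_sq ℝ)

theorem D_h0 (i : Fin 4) (z : E4) : D i h0 z = -(z i * rho0 z) := by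
  have := D_comp hd_aux (g := fun z : E4 => ‖z‖ ^ 2)
    ((contDiff_norm_sq ℝ (n := 1)).differentiable (by norm_num)) i
  have h2 : h0 = fun x : E4 => max (1 - ‖x‖ ^ 2) 0 ^ 3 / 6 := rfl
  rw [h2, this, D_normsq]
  simp only [rho0]; ring

noncomputable def c0 : ℝ := ∫ z, rho0 z

theorem c0_pos : 0 < c0 :=
  rho0_cont.integral_pos_of_hasCompactSupport_nonneg_nonzero (x := 0) rho0_supp rho0_nonneg
    (by simp [rho0])

theorem step1 {φ : E4 → ℝ} (hφ : ContDiff ℝ 2 φ) (y : E4) (t : ℝ) :
    ∫ z, fderiv ℝ φ (y + t • z) z * rho0 z = ∫ z, Lap φ (y + t • z) * (t * h0 z) := by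
  have haff : ContDiff ℝ 1 (fun z : E4 => y + t • z) := by fun_prop
  have hf : ∀ i, ContDiff ℝ 1 (fun z => D i φ (y + t • z)) := fun i => (contDiff_D hφ i).comp haff
  have hD : ∀ i z, D i (fun z => D i φ (y + t • z)) z = t * D i (D i φ) (y + t • z) := by
    intro i z
    have h1 : HasFDerivAt (fun z : E4 => y + t • z) (t • ContinuousLinearMap.id ℝ E4) z :=
      ((hasFDerivAt_id z).const_smul t).const_add y
    have h2 := ((diffD hφ i (y + t • z)).hasFDerivAt.comp z h1).fderiv
    have h3 : (fun z => D i φ (y + t • z)) = D i φ ∘ fun z : E4 => y + t • z := rfl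
    rw [h3]
    conv_lhs => rw [D]
    simp only [h2]
    simp [D]
  have e1 : ∀ z, fderiv ℝ φ (y + t • z) z * rho0 z = ∑ i, -(D i φ (y + t • z) * D i h0 z) := by
    intro z
    rw [fderiv_apply_eq, Finset.sum_mul]
    refine Finset.sum_congr rfl fun i _ => ?_
    rw [D_h0]; ring
  have e2 : ∀ z, Lap φ (y + t • z) * (t * h0 z) =
      ∑ i, D i (fun z => D i φ (y + t • z)) z * h0 z := by
    intro z
    simp only [Lap, Finset.sum_mul, hD]
    refine Finset.sum_congr rfl fun i _ => by ring
  simp only [e1, e2]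
  rw [integral_finsetSum, integral_finsetSum]
  · refine Finset.sum_congr rfl fun i _ => ?_
    rw [integral_neg, ibp (hf i) h0_contDiff h0_supp, neg_neg]
  · intro i _
    exact ((cont_D1 (hf i) i).mul h0_cont).integrable_of_hasCompactSupport h0_supp.mul_left
  · intro i _
    exact (((hf i).continuous.mul (cont_D1 h0_contDiff i)).integrable_of_hasCompactSupport
      (supp_D h0_supp i).mul_left).neg

theorem step2 {φ : E4 → ℝ} (hφ : ContDiff ℝ 2 φ) (y z : E4) (s : ℝ) :
    φ (y + s • z) - φ y = ∫ t in (0 : ℝ)..s, fderiv ℝ φ (y + t • z) z := by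
  have hd : ∀ t : ℝ, HasDerivAt (fun t : ℝ => φ (y + t • z)) (fderiv ℝ φ (y + t • z) z) t := by
    intro t
    have h1 : HasDerivAt (fun t : ℝ => y + t • z) z t := by
      simpa using ((hasDerivAt_id t).smul_const z).const_add y
    exact (diff2 hφ _).hasFDerivAt.comp_hasDerivAt t h1
  have hc : Continuous fun t : ℝ => fderiv ℝ φ (y + t • z) z :=
    ((hφ.continuous_fderiv (by norm_num)).comp (by fun_prop)).clm_apply continuous_const
  rw [intervalIntegral.integral_eq_sub_of_hasDerivAt (fun t _ => hd t) (hc.intervalIntegrable _ _)]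
  simp

/-- The measure on `ℝ × E4` carrying the potential kernel. -/
noncomputable abbrev mm (s : ℝ) : Measure (ℝ × E4) :=
  ((volume : Measure ℝ).restrict (Ioc 0 s)).prod (volume : Measure E4)

theorem weight_int (s : ℝ) : Integrable (fun p : ℝ × E4 => p.1 * h0 p.2) (mm s) :=
  Integrable.mul_prod (f := fun t : ℝ => t) (μ := (volume : Measure ℝ).restrict (Ioc 0 s))
    (continuous_id.integrableOn_Ioc) h0_int

theorem mean_value0 {φ : E4 → ℝ} (hφ : ContDiff ℝ 2 φ) (hc : HasCompactSupport φ) (y : E4) {s : ℝ}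
    (hs : 0 ≤ s) :
    (∫ z, φ (y + s • z) * rho0 z) - φ y * c0 =
      ∫ p : ℝ × E4, Lap φ (y + p.1 • p.2) * (p.1 * h0 p.2) ∂(mm s) := by
  obtain ⟨B, hB⟩ := (hφ.continuous_fderiv (by norm_num)).bounded_above_of_compact_support
    (hc.fderiv ℝ)
  obtain ⟨B', hB'⟩ := (cont_Lap hφ).bounded_above_of_compact_support (supp_Lap hc)
  have i1 : Integrable (fun z => φ (y + s • z) * rho0 z) :=
    ((hφ.continuous.comp (by fun_prop)).mul rho0_cont).integrable_of_hasCompactSupport
      rho0_supp.mul_left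
  have i2 : Integrable (fun p : ℝ × E4 => Lap φ (y + p.1 • p.2) * (p.1 * h0 p.2)) (mm s) := by
    refine (weight_int s).bdd_mul (c := B') ?_ (Filter.Eventually.of_forall fun p => hB' _)
    exact ((cont_Lap hφ).comp (by fun_prop)).aestronglyMeasurable
  have i3 : Integrable (Function.uncurry fun (t : ℝ) (z : E4) => fderiv ℝ φ (y + t • z) z * rho0 z)
      ((volume.restrict (uIoc 0 s)).prod volume) := by
    have j1 : Integrable (fun z : E4 => B * ‖z‖ * rho0 z) :=
      ((by fun_prop : Continuous fun z : E4 => B * ‖z‖).mul rho0_cont).integrable_of_hasCompactSupport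
        rho0_supp.mul_left
    have j2 : Integrable (fun p : ℝ × E4 => (1 : ℝ) * (B * ‖p.2‖ * rho0 p.2))
        ((volume.restrict (uIoc 0 s)).prod volume) := by
      refine Integrable.mul_prod (f := fun _ => (1 : ℝ)) ?_ j1
      rw [uIoc_of_le hs]
      exact continuous_const.integrableOn_Ioc
    refine j2.mono' ?_ (Filter.Eventually.of_forall fun p => ?_)
    · refine Continuous.aestronglyMeasurable ?_
      refine Continuous.mul ?_ (rho0_cont.comp continuous_snd)
      exact ((hφ.continuous_fderiv (by norm_num)).comp (by fun_prop)).clm_apply continuous_snd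
    · simp only [Function.uncurry, one_mul, norm_mul, Real.norm_eq_abs,
        abs_of_nonneg (rho0_nonneg _)]
      refine mul_le_mul_of_nonneg_right ?_ (rho0_nonneg _)
      exact ((fderiv ℝ φ (y + p.1 • p.2)).le_opNorm p.2).trans
        (mul_le_mul_of_nonneg_right (hB _) (norm_nonneg _))
  rw [integral_prod _ i2, c0, ← integral_const_mul, ← integral_sub i1 (rho0_int.const_mul _)]
  simp only [← step1 hφ]
  rw [← intervalIntegral.integral_of_le hs, intervalIntegral_integral_swap i3]
  refine integral_congr_ae (Filter.Eventually.of_forall fun z => ?_)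
  simp only
  rw [intervalIntegral.integral_mul_const, ← step2 hφ]
  ring

/-- A convolution-type operator with a signed integrable weight. -/
theorem conv_swap {Ω : Type*} [MeasurableSpace Ω] {m : Measure Ω} [SFinite m] {g : Ω → ℝ}
    (hg : Integrable g m) (hgm : Measurable g) {w : Ω → E4} (hw : Measurable w) {f ψ : E4 → ℝ}
    (hf : Measurable f) {B : ℝ} (hB : ∀ x, |f x| ≤ B) (hψ : Continuous ψ) (hψi : Integrable ψ) :
    ∫ x, (∫ ω, f (x - w ω) * g ω ∂m) * ψ x = ∫ y, f y * ∫ ω, ψ (y + w ω) * g ω ∂m := by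
  have hψm : Measurable ψ := hψ.measurable
  have i1 : Integrable (Function.uncurry fun (x : E4) (ω : Ω) => f (x - w ω) * g ω * ψ x)
      (volume.prod m) := by
    have j : Integrable (fun p : E4 × Ω => ψ p.1 * g p.2) (volume.prod m) := hψi.mul_prod hg
    have := j.bdd_mul (c := B) (f := fun p : E4 × Ω => f (p.1 - w p.2))
      (Measurable.aestronglyMeasurable (by fun_prop)) (Filter.Eventually.of_forall fun p => hB _)
    refine this.congr (Filter.Eventually.of_forall fun p => ?_)
    simp only [Function.uncurry]; ring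
  have i2 : Integrable (Function.uncurry fun (ω : Ω) (y : E4) => f y * (ψ (y + w ω) * g ω))
      (m.prod volume) := by
    have hmeas : AEStronglyMeasurable
        (Function.uncurry fun (ω : Ω) (y : E4) => ψ (y + w ω) * g ω) (m.prod volume) := by
      refine Measurable.aestronglyMeasurable ?_
      unfold Function.uncurry
      fun_prop
    have j : Integrable (Function.uncurry fun (ω : Ω) (y : E4) => ψ (y + w ω) * g ω)
        (m.prod volume) := by
      rw [integrable_prod_iff hmeas]
      refine ⟨Filter.Eventually.of_forall fun ω => ?_, ?_⟩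
      · exact (hψi.comp_add_right (w ω)).mul_const (g ω)
      · have : (fun ω => ∫ y, ‖Function.uncurry (fun (ω : Ω) (y : E4) => ψ (y + w ω) * g ω) (ω, y)‖)
            = fun ω => (∫ y, ‖ψ y‖) * ‖g ω‖ := by
          ext ω
          simp only [Function.uncurry, norm_mul]
          rw [integral_mul_const, integral_add_right_eq_self (fun y => ‖ψ y‖) (w ω)]
        rw [this]
        exact hg.norm.const_mul _
    exact j.bdd_mul (c := B) (f := fun p : Ω × E4 => f p.2)
      (Measurable.aestronglyMeasurable (by fun_prop)) (Filter.Eventually.of_forall fun p => hB _)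
  calc ∫ x, (∫ ω, f (x - w ω) * g ω ∂m) * ψ x
      = ∫ x, ∫ ω, f (x - w ω) * g ω * ψ x ∂m := by simp only [integral_mul_const]
    _ = ∫ ω, (∫ x, f (x - w ω) * g ω * ψ x) ∂m := integral_integral_swap i1
    _ = ∫ ω, (∫ y, f y * (ψ (y + w ω) * g ω)) ∂m := by
      refine integral_congr_ae (Filter.Eventually.of_forall fun ω => ?_)
      simp only
      rw [← integral_add_right_eq_self _ (w ω)]
      simp only [add_sub_cancel_right]
      exact integral_congr_ae (Filter.Eventually.of_forall fun y => by ring)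
    _ = ∫ y, ∫ ω, f y * (ψ (y + w ω) * g ω) ∂m := integral_integral_swap i2
    _ = _ := by simp only [integral_const_mul]

end Pool.Agent.H198Z.Landis
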