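import Pool.Agent.H198Z.Landis.B

set_option autoImplicit false

open MeasureTheory Set Filter Topology

namespace Pool.Agent.H198Z.Landis

theorem fixed_point {X : Type*} [MeasurableSpace X] (A : X → ℝ) (hA : ∀ x, 0 ≤ A x)
    (T : (X → ℝ) → X → ℝ)
    (hT : ∀ f c, 0 ≤ c → Measurable f → (∀ x, |f x| ≤ c * A x) →
      Measurable (T f) ∧ ∀ x, |T f x| ≤ c / 2 * A x)
    (hsub : ∀ f g c, 0 ≤ c → Measurable f → Measurable g → (∀ x, |f x| ≤ c * A x) →
      (∀ x, |g x| ≤ c * A x) → ∀ x, T f x - T g x = T (fun y => f y - g y) x)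
    (b : X → ℝ) (K : ℝ) (hK : 0 ≤ K) (hb : Measurable b) (hbK : ∀ x, |b x| ≤ K * A x) :
    ∃ g : X → ℝ, Measurable g ∧ (∀ x, |g x| ≤ 2 * K * A x) ∧ ∀ x, g x = b x + T g x := by
  let a : ℕ → X → ℝ := fun n => Nat.rec (fun _ => 0) (fun _ f x => b x + T f x) n
  have a0 : a 0 = fun _ => 0 := rfl
  have aS : ∀ n, a (n + 1) = fun x => b x + T (a n) x := fun n => rfl
  have h1 : ∀ n, Measurable (a n) ∧ ∀ x, |a n x| ≤ 2 * K * A x := by
    intro n
    induction n with
    | zero => exact ⟨measurable_const, fun x => by simp only [a0, abs_zero]; have := hA x; positivity⟩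
    | succ n ih =>
      obtain ⟨h2, h3⟩ := hT (a n) (2 * K) (by positivity) ih.1 ih.2
      refine ⟨hb.add h2, fun x => ?_⟩
      rw [aS]
      have := abs_add_le (b x) (T (a n) x)
      have := hbK x
      have := h3 x
      linarith
  have h2 : ∀ n x, |a (n + 1) x - a n x| ≤ K * (1 / 2) ^ n * A x := by
    intro n
    induction n with
    | zero =>
      intro x
      have := (hT (a 0) 0 le_rfl (h1 0).1 (fun x => by simp [a0])).2 x
      have h0 : T (a 0) x = 0 := by simpa using this
      rw [aS]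
      simp only [h0]
      simpa [a0] using hbK x
    | succ n ih =>
      intro x
      have e : a (n + 1 + 1) x - a (n + 1) x = T (a (n + 1)) x - T (a n) x := by
        have e1 : a (n + 1 + 1) x = b x + T (a (n + 1)) x := rfl
        have e2 : a (n + 1) x = b x + T (a n) x := rfl
        rw [e1]; conv_lhs => rw [e2]
        ring
      rw [e, hsub _ _ (2 * K) (by positivity) (h1 (n + 1)).1 (h1 n).1 (h1 (n + 1)).2 (h1 n).2]
      have := (hT (fun y => a (n + 1) y - a n y) (K * (1 / 2) ^ n) (by positivity)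
        ((h1 (n + 1)).1.sub (h1 n).1) ih).2 x
      refine this.trans (le_of_eq ?_)
      ring
  have h3 : ∀ x n, dist (a n x) (a (n + 1) x) ≤ (K * A x) * (1 / 2) ^ n := by
    intro x n
    rw [dist_comm, Real.dist_eq]
    have := h2 n x
    linarith
  have h4 : ∀ x, ∃ l, Tendsto (fun n => a n x) atTop (𝓝 l) := fun x =>
    cauchySeq_tendsto_of_complete (cauchySeq_of_le_geometric (1 / 2) (K * A x) (by norm_num) (h3 x))
  choose g hg using h4
  have gm : Measurable g :=
    measurable_of_tendsto_metrizable (fun n => (h1 n).1) (tendsto_pi_nhds.2 hg)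
  have gb : ∀ x, |g x| ≤ 2 * K * A x := fun x =>
    le_of_tendsto' ((continuous_abs.tendsto _).comp (hg x)) fun n => (h1 n).2 x
  refine ⟨g, gm, gb, fun x => ?_⟩
  have h5 : ∀ n y, |a n y - g y| ≤ (2 * K * (1 / 2) ^ n) * A y := by
    intro n y
    have := dist_le_of_le_geometric_of_tendsto (1 / 2) (K * A y) (by norm_num) (h3 y) (hg y) n
    rw [Real.dist_eq] at this
    refine this.trans (le_of_eq ?_)
    ring
  have h6 : Tendsto (fun n => T (a n) x) atTop (𝓝 (T g x)) := by
    rw [tendsto_iff_dist_tendsto_zero]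
    have hl : Tendsto (fun n : ℕ => (K * A x) * (1 / 2 : ℝ) ^ n) atTop (𝓝 0) := by
      simpa using (tendsto_pow_atTop_nhds_zero_of_lt_one (r := (1 / 2 : ℝ)) (by norm_num)
        (by norm_num)).const_mul (K * A x)
    refine squeeze_zero (fun _ => dist_nonneg) (fun n => ?_) hl
    rw [Real.dist_eq, hsub _ _ (2 * K) (by positivity) (h1 _).1 gm (h1 _).2 gb]
    have := (hT (fun y => a n y - g y) _ (by positivity) ((h1 n).1.sub gm) (h5 n)).2 x
    refine this.trans (le_of_eq ?_)
    ring
  have h7 : Tendsto (fun n => a (n + 1) x) atTop (𝓝 (b x + T g x)) := h6.const_add (b x)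
  exact tendsto_nhds_unique ((hg x).comp (tendsto_add_atTop_nat 1)) h7

noncomputable def Rop (s : ℝ) (f : E4 → ℝ) (x : E4) : ℝ := ∫ z, f (x - s • z) * (rho0 z / c0)

noncomputable def Nop (s : ℝ) (f : E4 → ℝ) (x : E4) : ℝ :=
  ∫ p : ℝ × E4, f (x - p.1 • p.2) * (p.1 * h0 p.2 / c0) ∂(mm s)

theorem Rop_meas (s : ℝ) {f : E4 → ℝ} (hf : Measurable f) : Measurable (Rop s f) := by
  have h : Measurable (Function.uncurry fun (x z : E4) => f (x - s • z) * (rho0 z / c0)) := by
    have := rho0_cont.measurable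
    unfold Function.uncurry
    fun_prop
  exact (h.stronglyMeasurable.integral_prod_right (ν := volume)).measurable

theorem Nop_meas (s : ℝ) {f : E4 → ℝ} (hf : Measurable f) : Measurable (Nop s f) := by
  have h : Measurable (Function.uncurry fun (x : E4) (p : ℝ × E4) =>
      f (x - p.1 • p.2) * (p.1 * h0 p.2 / c0)) := by
    have := h0_cont.measurable
    unfold Function.uncurry
    fun_prop
  exact (h.stronglyMeasurable.integral_prod_right (ν := mm s)).measurable

theorem Rop_int (s : ℝ) {f : E4 → ℝ} (hf : Measurable f) {B : ℝ} (hB : ∀ x, |f x| ≤ B) (x : E4) :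
    Integrable (fun z => f (x - s • z) * (rho0 z / c0)) :=
  (rho0_int.div_const c0).bdd_mul (c := B) (Measurable.aestronglyMeasurable (by fun_prop))
    (Eventually.of_forall fun _ => hB _)

theorem Nop_int (s : ℝ) {f : E4 → ℝ} (hf : Measurable f) {B : ℝ} (hB : ∀ x, |f x| ≤ B) (x : E4) :
    Integrable (fun p : ℝ × E4 => f (x - p.1 • p.2) * (p.1 * h0 p.2 / c0)) (mm s) :=
  ((weight_int s).div_const c0).bdd_mul (c := B) (Measurable.aestronglyMeasurable (by fun_prop))
    (Eventually.of_forall fun _ => hB _)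

theorem int_bdd_mul {f ψ : E4 → ℝ} (hf : Measurable f) {B : ℝ} (hB : ∀ x, |f x| ≤ B)
    (hψ : Continuous ψ) (hc : HasCompactSupport ψ) : Integrable (fun x => f x * ψ x) :=
  (hψ.integrable_of_hasCompactSupport hc).bdd_mul (c := B) hf.aestronglyMeasurable
    (Eventually.of_forall fun _ => hB _)

theorem weak_N {s : ℝ} (hs : 0 ≤ s) {f : E4 → ℝ} (hf : Measurable f) {B : ℝ} (hB : ∀ x, |f x| ≤ B)
    {φ : E4 → ℝ} (hφ : ContDiff ℝ 2 φ) (hc : HasCompactSupport φ) :
    ∫ x, Nop s f x * Lap φ x = (∫ x, Rop s f x * φ x) - ∫ x, f x * φ x := by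
  have hh := h0_cont.measurable
  have hr := rho0_cont.measurable
  have e1 := conv_swap (m := mm s) ((weight_int s).div_const c0) (by fun_prop)
    (w := fun p : ℝ × E4 => p.1 • p.2) (by fun_prop) hf hB (cont_Lap hφ)
    ((cont_Lap hφ).integrable_of_hasCompactSupport (supp_Lap hc))
  have e2 := conv_swap (m := volume) (rho0_int.div_const c0) (by fun_prop)
    (w := fun z : E4 => s • z) (by fun_prop) hf hB hφ.continuous
    (hφ.continuous.integrable_of_hasCompactSupport hc)
  have e3 : ∀ y, ∫ p : ℝ × E4, Lap φ (y + p.1 • p.2) * (p.1 * h0 p.2 / c0) ∂(mm s) =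
      (∫ z, φ (y + s • z) * (rho0 z / c0)) - φ y := by
    intro y
    simp only [← mul_div_assoc, integral_div]
    rw [← mean_value0 hφ hc y hs]
    have := c0_pos.ne'
    field_simp
  unfold Nop Rop
  rw [e1, e2]
  simp only [e3, mul_sub]
  refine integral_sub ?_ (int_bdd_mul hf hB hφ.continuous hc)
  -- integrability of `f * (φ ⋆ ρ)`
  have j : Integrable (fun y : E4 => ∫ z, φ (y + s • z) * (rho0 z / c0)) := by
    have hφi := hφ.continuous.integrable_of_hasCompactSupport hc (μ := volume)
    have hφm := hφ.continuous.measurable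
    have hmeas : AEStronglyMeasurable
        (Function.uncurry fun (z y : E4) => φ (y + s • z) * (rho0 z / c0))
        (volume.prod volume) := by
      refine Measurable.aestronglyMeasurable ?_
      unfold Function.uncurry
      fun_prop
    have j : Integrable (Function.uncurry fun (z y : E4) => φ (y + s • z) * (rho0 z / c0))
        (volume.prod volume) := by
      rw [integrable_prod_iff hmeas]
      refine ⟨Eventually.of_forall fun z => ?_, ?_⟩
      · exact (hφi.comp_add_right (s • z)).mul_const (rho0 z / c0)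
      · have : (fun z => ∫ y, ‖Function.uncurry
            (fun (z y : E4) => φ (y + s • z) * (rho0 z / c0)) (z, y)‖)
            = fun z => (∫ y, ‖φ y‖) * ‖rho0 z / c0‖ := by
          ext z
          simp only [Function.uncurry, norm_mul]
          rw [integral_mul_const, integral_add_right_eq_self (fun y => ‖φ y‖) (s • z)]
        rw [this]
        exact (rho0_int.div_const c0).norm.const_mul _
    exact j.integral_prod_right
  exact j.bdd_mul (c := B) hf.aestronglyMeasurable (Eventually.of_forall fun _ => hB _)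

theorem Nop_bound {s : ℝ} (hs : 0 < s) (hs1 : s ≤ 1) {A : E4 → ℝ} (hA : ∀ x, 0 < A x)
    (hA3 : ∀ x y, ‖y - x‖ ≤ s → A y ≤ 3 * A x) {f : E4 → ℝ} {c : ℝ} (hc : 0 ≤ c)
    (hf : ∀ x, |f x| ≤ c * A x) (x : E4) : |Nop s f x| ≤ c / 4 * A x := by
  have hx := hA x
  have hc0 := c0_pos
  have hae : ∀ᵐ p : ℝ × E4 ∂(mm s), p.1 ∈ Ioc 0 s :=
    Measure.quasiMeasurePreserving_fst.ae (ae_restrict_mem measurableSet_Ioc)
  have h1 : ‖Nop s f x‖ ≤ ∫ p : ℝ × E4, (3 * c * A x / c0) * (p.1 * h0 p.2) ∂(mm s) := by
    refine norm_integral_le_of_norm_le ((weight_int s).const_mul _) ?_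
    filter_upwards [hae] with p hp
    have hp0 := hp.1
    have hh := h0_nonneg p.2
    by_cases hz : 1 < ‖p.2‖
    · simp [h0_zero hz]
    · push Not at hz
      have h2 : A (x - p.1 • p.2) ≤ 3 * A x := by
        apply hA3
        rw [sub_sub_cancel_left, norm_neg, norm_smul, Real.norm_eq_abs, abs_of_pos hp.1]
        nlinarith [hp.2, norm_nonneg p.2]
      rw [norm_mul, Real.norm_eq_abs, Real.norm_eq_abs,
        abs_of_nonneg (a := p.1 * h0 p.2 / c0) (by positivity)]
      calc |f (x - p.1 • p.2)| * (p.1 * h0 p.2 / c0) ≤ (c * (3 * A x)) * (p.1 * h0 p.2 / c0) := by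
            gcongr
            exact (hf _).trans (by gcongr)
        _ = _ := by ring
  rw [integral_const_mul, integral_prod_mul (f := fun t : ℝ => t) (g := h0),
    ← intervalIntegral.integral_of_le hs.le, integral_id] at h1
  have h2 : ∫ z, h0 z ≤ c0 / 6 := by
    rw [c0, ← integral_div]
    exact integral_mono h0_int (rho0_int.div_const _) h0_le
  have h3 : 0 ≤ ∫ z, h0 z := integral_nonneg h0_nonneg
  have h4 : (s ^ 2 - 0 ^ 2) / 2 ≤ 1 / 2 := by nlinarith
  calc |Nop s f x| ≤ 3 * c * A x / c0 * ((s ^ 2 - 0 ^ 2) / 2 * ∫ z, h0 z) := h1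
    _ ≤ 3 * c * A x / c0 * (1 / 2 * (c0 / 6)) := by gcongr
    _ = c / 4 * A x := by field_simp; ring

theorem Rop_bound {s : ℝ} (hs : 0 < s) {A : E4 → ℝ} (hA : ∀ x, 0 < A x)
    (hA3 : ∀ x y, ‖y - x‖ ≤ s → A y ≤ 3 * A x) {N : Set E4} (hN : MeasurableSet N)
    (hd : ∀ x, Rop s (N.indicator 1) x ≤ 1 / 12) {f : E4 → ℝ} {c : ℝ} (hc : 0 ≤ c)
    (hf : ∀ x, |f x| ≤ c * A x) (x : E4) : |Rop s (N.indicator f) x| ≤ c / 4 * A x := by
  have hx := hA x
  have hc0 := c0_pos
  have hi := Rop_int s (f := N.indicator 1) (measurable_one.indicator hN) (B := 1)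
    (fun y => by by_cases h : y ∈ N <;> simp [h]) x
  have h1 : ‖Rop s (N.indicator f) x‖ ≤
      ∫ z, (3 * c * A x) * (N.indicator 1 (x - s • z) * (rho0 z / c0)) := by
    refine norm_integral_le_of_norm_le (hi.const_mul _) (Eventually.of_forall fun z => ?_)
    have hh := rho0_nonneg z
    by_cases hz : 1 < ‖z‖
    · simp [rho0_zero hz]
    · push Not at hz
      by_cases hm : x - s • z ∈ N
      · have h2 : A (x - s • z) ≤ 3 * A x := by
          apply hA3
          rw [sub_sub_cancel_left, norm_neg, norm_smul, Real.norm_eq_abs, abs_of_pos hs]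
          nlinarith [norm_nonneg z]
        rw [indicator_of_mem hm, indicator_of_mem hm, norm_mul, Real.norm_eq_abs, Real.norm_eq_abs,
          abs_of_nonneg (a := rho0 z / c0) (by positivity)]
        calc |f (x - s • z)| * (rho0 z / c0) ≤ (c * (3 * A x)) * (rho0 z / c0) := by
              gcongr
              exact (hf _).trans (by gcongr)
          _ = _ := by simp only [Pi.one_apply]; ring
      · simp [hm]
  rw [integral_const_mul] at h1
  have h2 := hd x
  unfold Rop at h2
  calc |Rop s (N.indicator f) x| ≤ _ := h1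
    _ ≤ 3 * c * A x * (1 / 12) := by gcongr
    _ = c / 4 * A x := by ring

/-- An approximate solution whose sublevel set is thin can be corrected to an exact one. -/
theorem correction {s : ℝ} (hs : 0 < s) (hs1 : s ≤ 1) {A : E4 → ℝ} (hA : ∀ x, 0 < A x)
    {Amax : ℝ} (hAm : ∀ x, A x ≤ Amax) (hAc : Measurable A)
    (hA3 : ∀ x y, ‖y - x‖ ≤ s → A y ≤ 3 * A x) {u0 V0 : E4 → ℝ} (hu0 : ContDiff ℝ 2 u0)
      (hV0 : Measurable V0) (hV1 : ∀ x, |V0 x| ≤ 1) {K δ : ℝ} (hK : 0 ≤ K) (hδ : 0 < δ)
    (hKδ : 4 * K ≤ δ) (hE : ∀ x, |Lap u0 x - V0 x * u0 x| ≤ K * A x)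
    (hd : ∀ x, Rop s ({y | |u0 y| < δ * A y}.indicator 1) x ≤ 1 / 12) :
    ∃ u V : E4 → ℝ, Measurable u ∧ Measurable V ∧ (∀ x, |V x| ≤ 2) ∧
      (∀ x, |u x - u0 x| ≤ K * A x) ∧
      ∀ φ : E4 → ℝ, ContDiff ℝ 2 φ → HasCompactSupport φ →
        ∫ x, (-(u x * Lap φ x) + V x * u x * φ x) = 0 := by
  set N := {y | |u0 y| < δ * A y} with hNdef
  have hu0m : Measurable u0 := hu0.continuous.measurable
  have hN : MeasurableSet N := measurableSet_lt (by fun_prop) (by fun_prop)
  have hind : ∀ (f : E4 → ℝ) (c : ℝ), 0 ≤ c → (∀ x, |f x| ≤ c * A x) →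
      ∀ x, |N.indicator f x| ≤ c * A x := by
    intro f c hc hf x
    by_cases h : x ∈ N
    · simpa [h] using hf x
    · have := hA x
      simp only [h, not_false_eq_true, indicator_of_notMem, abs_zero]; positivity
  have hbd : ∀ (f : E4 → ℝ) (c : ℝ), 0 ≤ c → (∀ x, |f x| ≤ c * A x) → ∀ x, |f x| ≤ c * Amax :=
    fun f c hc hf x => (hf x).trans (by gcongr; exact hAm x)
  let T : (E4 → ℝ) → E4 → ℝ := fun g x =>
    Rop s (N.indicator g) x - V0 x * Nop s (N.indicator g) x
  obtain ⟨g, gm, gb, hg⟩ := fixed_point A (fun x => (hA x).le) T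
    (by
      intro f c hc hf hfb
      refine ⟨(Rop_meas s (hf.indicator hN)).sub (hV0.mul (Nop_meas s (hf.indicator hN))),
        fun x => ?_⟩
      have h1 := Rop_bound hs hA hA3 hN hd hc hfb x
      have h2 := Nop_bound hs hs1 hA hA3 hc (hind f c hc hfb) x
      have h3 : |V0 x * Nop s (N.indicator f) x| ≤ c / 4 * A x := by
        rw [abs_mul]
        calc _ ≤ 1 * (c / 4 * A x) := by gcongr; exact hV1 x
          _ = _ := one_mul _
      have := abs_sub (Rop s (N.indicator f) x) (V0 x * Nop s (N.indicator f) x)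
      simp only [T]
      linarith)
    (by
      intro f f' c hc hf hf' hfb hfb' x
      have e : N.indicator (fun y => f y - f' y) = fun y => N.indicator f y - N.indicator f' y := by
        ext y; by_cases h : y ∈ N <;> simp [h]
      have b1 := hbd _ c hc (hind f c hc hfb)
      have b2 := hbd _ c hc (hind f' c hc hfb')
      simp only [T, e, Rop, Nop, sub_mul]
      rw [integral_sub (Rop_int s (hf.indicator hN) b1 x) (Rop_int s (hf'.indicator hN) b2 x),
        integral_sub (Nop_int s (hf.indicator hN) b1 x) (Nop_int s (hf'.indicator hN) b2 x)]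
      ring)
    (fun x => -(Lap u0 x - V0 x * u0 x)) K hK
    (((cont_Lap hu0).measurable.sub (hV0.mul hu0m)).neg) (fun x => by rw [abs_neg]; exact hE x)
  set f := N.indicator g with hfdef
  have fm : Measurable f := gm.indicator hN
  have h2K : 0 ≤ 2 * K := by positivity
  have fb := hind g (2 * K) h2K gb
  have nb : ∀ x, |Nop s f x| ≤ K / 2 * A x := fun x => by
    have := Nop_bound hs hs1 hA hA3 h2K fb x
    linarith
  have rb : ∀ x, |Rop s f x| ≤ K / 2 * A x := fun x => by
    have := Rop_bound hs hA hA3 hN hd h2K gb x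
    linarith
  let u : E4 → ℝ := fun x => u0 x - Nop s f x
  have um : Measurable u := hu0m.sub (Nop_meas s fm)
  let V : E4 → ℝ := fun x => V0 x - Nᶜ.indicator (fun x => g x / u x) x
  have hul : ∀ x, x ∉ N → δ / 2 * A x ≤ |u x| := by
    intro x hx
    have h1 : δ * A x ≤ |u0 x| := by simpa [hNdef] using hx
    have h2 := abs_sub_abs_le_abs_sub (u0 x) (Nop s f x)
    have h3 := nb x
    have := hA x
    simp only [u]
    nlinarith
  have hVu : ∀ x, V x * u x = Lap u0 x + f x - Rop s f x := by
    intro x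
    have h1 := hg x
    simp only [T, ← hfdef] at h1
    by_cases h : x ∈ N
    · have : f x = g x := by simp [hfdef, h]
      simp only [V, u, mem_compl_iff, h, not_true_eq_false, not_false_eq_true, indicator_of_notMem,
        this]
      linarith
    · have hf0 : f x = 0 := by simp [hfdef, h]
      have hne : u x ≠ 0 := by
        intro h0
        have := hul x h
        have := hA x
        rw [h0, abs_zero] at *
        nlinarith
      have : V x * u x = V0 x * u x - g x := by
        simp only [V, mem_compl_iff, h, not_false_eq_true, indicator_of_mem]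
        field_simp
      rw [this, hf0]
      simp only [u]
      linarith
  refine ⟨u, V, um, hV0.sub ((gm.div um).indicator hN.compl), fun x => ?_, fun x => ?_, ?_⟩
  · have h1 := hV1 x
    have h2 : |Nᶜ.indicator (fun x => g x / u x) x| ≤ 1 := by
      by_cases h : x ∈ N
      · simp [h]
      · have h3 := hul x h
        have h4 := hA x
        have h5 := gb x
        simp only [mem_compl_iff, h, not_false_eq_true, indicator_of_mem, abs_div]
        rw [div_le_one (by nlinarith)]
        nlinarith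
    have := abs_sub (V0 x) (Nᶜ.indicator (fun x => g x / u x) x)
    simp only [V]
    linarith
  · have := nb x
    have := hA x
    simp only [u, sub_sub_cancel_left, abs_neg]
    nlinarith
  · intro φ hφ hc
    have hAm0 : 0 ≤ Amax := (hA 0).le.trans (hAm 0)
    have fB := hbd f _ h2K fb
    have nB := hbd _ (K / 2) (by positivity) nb
    have rB := hbd _ (K / 2) (by positivity) rb
    have i1 : Integrable (fun x => u0 x * Lap φ x) :=
      (hu0.continuous.mul (cont_Lap hφ)).integrable_of_hasCompactSupport (supp_Lap hc).mul_left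
    have i2 := int_bdd_mul (Nop_meas s fm) nB (cont_Lap hφ) (supp_Lap hc)
    have i3 : Integrable (fun x => Lap u0 x * φ x) :=
      ((cont_Lap hu0).mul hφ.continuous).integrable_of_hasCompactSupport hc.mul_left
    have i4 := int_bdd_mul fm fB hφ.continuous hc
    have i5 := int_bdd_mul (Rop_meas s fm) rB hφ.continuous hc
    have e : ∀ x, -(u x * Lap φ x) + V x * u x * φ x =
        (Nop s f x * Lap φ x - u0 x * Lap φ x) +
          ((Lap u0 x * φ x + f x * φ x) - Rop s f x * φ x) := by
      intro x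
      rw [hVu]
      simp only [u]; ring
    simp only [e]
    have j1 : Integrable (fun x => Nop s f x * Lap φ x - u0 x * Lap φ x) := i2.sub i1
    have j2 : Integrable (fun x => Lap u0 x * φ x + f x * φ x) := i3.add i4
    have j3 : Integrable (fun x => Lap u0 x * φ x + f x * φ x - Rop s f x * φ x) := j2.sub i5
    rw [integral_add j1 j3, integral_sub i2 i1,
      integral_sub j2 i5, integral_add i3 i4, weak_N hs.le fm fB hφ hc, green hu0 hφ hc]
    ring

end Pool.Agent.H198Z.Landis
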