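import Pool.Agent.H198Z.Landis.C

set_option autoImplicit false

open MeasureTheory Set Filter Topology

namespace Pool.Agent.H198Z.Landis

theorem compact_sublevel {P : Type*} [TopologicalSpace P] {K : Set P} (hK : IsCompact K)
    {H : P → ℝ → ℝ} (hH : Continuous (Function.uncurry H))
    (h0 : ∀ p ∈ K, volume {t ∈ Icc (0 : ℝ) 1 | H p t = 0} = 0) {ε : ENNReal} (hε : 0 < ε) :
    ∃ δ > 0, ∀ p ∈ K, volume {t ∈ Icc (0 : ℝ) 1 | |H p t| ≤ δ} ≤ ε := by
  refine hK.induction_on (p := fun S => ∃ δ > 0, ∀ p ∈ S, volume {t ∈ Icc (0 : ℝ) 1 | |H p t| ≤ δ} ≤ ε)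
    ⟨1, one_pos, by simp⟩ ?_ ?_ ?_
  · rintro S T hST ⟨δ, hδ, h⟩
    exact ⟨δ, hδ, fun p hp => h p (hST hp)⟩
  · rintro S T ⟨δ, hδ, h⟩ ⟨δ', hδ', h'⟩
    refine ⟨min δ δ', lt_min hδ hδ', ?_⟩
    rintro p (hp | hp)
    · refine le_trans (measure_mono fun t ht => ?_) (h p hp)
      exact ⟨ht.1, ht.2.trans (min_le_left _ _)⟩
    · refine le_trans (measure_mono fun t ht => ?_) (h' p hp)
      exact ⟨ht.1, ht.2.trans (min_le_right _ _)⟩
  · intro p hp
    have hc : Continuous (H p) := hH.uncurry_left p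
    let S : ℕ → Set ℝ := fun n => {t ∈ Icc (0 : ℝ) 1 | |H p t| ≤ 1 / ((n : ℝ) + 1)}
    have hm : ∀ n, MeasurableSet (S n) := fun n =>
      measurableSet_Icc.inter (measurableSet_le (f := fun t => |H p t|) hc.abs.measurable
        measurable_const)
    have hanti : Antitone S := by
      intro n m hnm t ht
      exact ⟨ht.1, ht.2.trans (Nat.one_div_le_one_div hnm)⟩
    have hlim := tendsto_measure_iInter_atTop (μ := volume) (fun n => (hm n).nullMeasurableSet) hanti
      ⟨0, ((measure_mono (fun t ht => ht.1)).trans_lt measure_Icc_lt_top).ne⟩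
    have hz : volume (⋂ n, S n) = 0 := by
      refine measure_mono_null (fun t ht => ?_) (h0 p hp)
      rw [mem_iInter] at ht
      refine ⟨(ht 0).1, abs_nonpos_iff.1 ?_⟩
      exact ge_of_tendsto' tendsto_one_div_add_atTop_nhds_zero_nat fun n => (ht n).2
    rw [hz] at hlim
    obtain ⟨n, hn⟩ := (hlim.eventually (gt_mem_nhds hε)).exists
    set r : ℝ := 1 / ((n : ℝ) + 1) with hr
    have hr0 : 0 < r := by positivity
    have hev : ∀ᶠ q in 𝓝 p, ∀ t ∈ Icc (0 : ℝ) 1, |H q t - H p t| < r / 2 := by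
      refine isCompact_Icc.eventually_forall_of_forall_eventually fun t _ => ?_
      have hcc : Continuous fun z : P × ℝ => |H z.1 z.2 - H p z.2| :=
        (hH.sub (hc.comp continuous_snd)).abs
      exact hcc.continuousAt.eventually (gt_mem_nhds (by simpa using hr0))
    refine ⟨_, mem_nhdsWithin_of_mem_nhds hev, r / 2, by positivity, fun q hq => ?_⟩
    refine (measure_mono fun t ht => ?_).trans hn.le
    refine ⟨ht.1, ?_⟩
    have h1 := hq t ht.1
    have h2 := ht.2
    have h3 := abs_sub_abs_le_abs_sub (H p t) (H q t)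
    rw [abs_sub_comm] at h3
    linarith

/-- the character with frequency `l` -/
noncomputable def chi (l : ℝ) : Multiplicative ℝ →* ℂ where
  toFun t := Complex.exp (((l * t.toAdd : ℝ) : ℂ) * Complex.I)
  map_one' := by simp
  map_mul' a b := by
    rw [← Complex.exp_add]; congr 1
    simp only [toAdd_mul]; push_cast; ring

theorem chi_inj : Function.Injective chi := by
  intro l l' h
  by_contra hne
  have hne' : l - l' ≠ 0 := sub_ne_zero.2 hne
  have h1 := DFunLike.congr_fun h (Multiplicative.ofAdd (Real.pi / (l - l')))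
  simp only [chi, MonoidHom.coe_mk, OneHom.coe_mk, toAdd_ofAdd] at h1
  have h2 : l * (Real.pi / (l - l')) = l' * (Real.pi / (l - l')) + Real.pi := by
    field_simp; ring
  rw [h2] at h1
  push_cast at h1
  rw [add_mul, Complex.exp_add, Complex.exp_pi_mul_I] at h1
  have h3 := Complex.exp_ne_zero ((l' : ℂ) * (Real.pi / (l - l')) * Complex.I)
  apply h3
  linear_combination (-1 / 2 : ℂ) * h1

/-- trigonometric sums -/
noncomputable def trig {ι : Type*} [Fintype ι] (a : ℝ) (b b' ω : ι → ℝ) (t : ℝ) : ℝ :=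
  a + ∑ j, (b j * Real.cos (ω j * t) + b' j * Real.sin (ω j * t))

theorem trig_ne_zero {ι : Type*} [Fintype ι] {a : ℝ} {b b' ω : ι → ℝ} (hω : ∀ j, 0 < ω j)
    (hinj : Function.Injective ω) (h : ∀ t, trig a b b' ω t = 0) :
    a = 0 ∧ ∀ j, b j = 0 ∧ b' j = 0 := by
  let l : Option (ι × Bool) → ℝ := fun o => match o with
    | none => 0
    | some (j, true) => ω j
    | some (j, false) => -ω j
  have hl : Function.Injective l := by
    rintro (_ | ⟨j, _ | _⟩) (_ | ⟨j', _ | _⟩) hh <;> simp only [l] at hh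
    · rfl
    · have := hω j'; linarith
    · have := hω j'; linarith
    · have := hω j; linarith
    · rw [hinj (neg_injective hh)]
    · have := hω j; have := hω j'; linarith
    · have := hω j; linarith
    · have := hω j; have := hω j'; linarith
    · rw [hinj hh]
  have hli := (linearIndependent_monoidHom (Multiplicative ℝ) ℂ).comp (chi ∘ l) (chi_inj.comp hl)
  let c : Option (ι × Bool) → ℂ := fun o => match o with
    | none => a
    | some (j, true) => (b j - b' j * Complex.I) / 2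
    | some (j, false) => (b j + b' j * Complex.I) / 2
  have hc := Fintype.linearIndependent_iff.1 hli c (by
    ext t
    have h1 : ((trig a b b' ω t.toAdd : ℝ) : ℂ) = 0 := by rw [h]; simp
    simp only [Finset.sum_apply, Pi.smul_apply, Function.comp_apply, smul_eq_mul, Pi.zero_apply]
    rw [Fintype.sum_option, Fintype.sum_prod_type, ← h1]
    simp only [trig, Fintype.sum_bool, chi, MonoidHom.coe_mk, OneHom.coe_mk, l, c]
    push_cast
    congr 1
    · simp
    · refine Finset.sum_congr rfl fun j _ => ?_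
      rw [Complex.exp_mul_I, Complex.exp_mul_I, neg_mul, Complex.cos_neg, Complex.sin_neg]
      linear_combination (-(b' j : ℂ) * Complex.sin (ω j * t.toAdd)) * Complex.I_mul_I)
  refine ⟨by simpa [c] using hc none, fun j => ?_⟩
  have h1 := hc (some (j, true))
  simp only [c, div_eq_zero_iff, OfNat.ofNat_ne_zero, or_false] at h1
  have h2 := congrArg Complex.re h1
  have h3 := congrArg Complex.im h1
  simp at h2 h3
  exact ⟨h2, h3⟩

theorem trig_sublevel (ι : Type) [Fintype ι] {κ : ℝ} (hκ : 0 < κ) {ε : ENNReal} (hε : 0 < ε) :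
    ∃ δ > 0, ∀ (a : ℝ) (b b' ω : ι → ℝ), |a| ≤ 1 → (∀ j, |b j| ≤ 1) → (∀ j, |b' j| ≤ 1) →
      1 ≤ a ^ 2 + ∑ j, (b j ^ 2 + b' j ^ 2) → (∀ j, κ ≤ ω j) → (∀ j, ω j ≤ 1) →
      (∀ j j', j ≠ j' → κ ≤ |ω j - ω j'|) →
      volume {t ∈ Icc (0 : ℝ) 1 | |trig a b b' ω t| ≤ δ} ≤ ε := by
  let K0 : Set (ℝ × (ι → ℝ) × (ι → ℝ) × (ι → ℝ)) :=
    Icc (-1 : ℝ) 1 ×ˢ Icc (-1 : ι → ℝ) 1 ×ˢ Icc (-1 : ι → ℝ) 1 ×ˢ Icc (fun _ : ι => κ) (1 : ι → ℝ)
  have hK0 : IsCompact K0 :=
    isCompact_Icc.prod (isCompact_Icc.prod (isCompact_Icc.prod isCompact_Icc))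
  let K1 : Set (ℝ × (ι → ℝ) × (ι → ℝ) × (ι → ℝ)) :=
    {p | 1 ≤ p.1 ^ 2 + ∑ j, (p.2.1 j ^ 2 + p.2.2.1 j ^ 2)} ∩
    ⋂ j, ⋂ j', ⋂ _ : j ≠ j', {p | κ ≤ |p.2.2.2 j - p.2.2.2 j'|}
  have hK1 : IsClosed K1 := by
    refine (isClosed_le continuous_const (by fun_prop)).inter ?_
    exact isClosed_iInter fun j => isClosed_iInter fun j' => isClosed_iInter fun _ =>
      isClosed_le continuous_const (by fun_prop)
  obtain ⟨δ, hδ, h⟩ := compact_sublevel (hK0.inter_right hK1)
    (H := fun p t => trig p.1 p.2.1 p.2.2.1 p.2.2.2 t)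
    (by unfold Function.uncurry trig; fun_prop)
    (by
      rintro ⟨a, b, b', ω⟩ ⟨⟨-, -, -, hω, -⟩, h1, h2⟩
      simp only [mem_iInter, mem_setOf_eq] at h1 h2
      have hpos : ∀ j, 0 < ω j := fun j => hκ.trans_le (hω j)
      have hinj : Function.Injective ω := by
        intro j j' hj
        by_contra hne
        have := h2 j j' hne
        rw [hj, sub_self, abs_zero] at this
        linarith
      have hex : ∃ t, trig a b b' ω t ≠ 0 := by
        by_contra hall
        push Not at hall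
        obtain ⟨ha, hb⟩ := trig_ne_zero hpos hinj hall
        simp [ha, fun j => (hb j).1, fun j => (hb j).2] at h1
        linarith
      obtain ⟨t0, ht0⟩ := hex
      have han : AnalyticOnNhd ℝ (trig a b b' ω) univ := by
        intro t _
        unfold trig
        fun_prop
      have h3 := ae_restrict_le_codiscreteWithin (μ := (volume : Measure ℝ)) MeasurableSet.univ
        (han.preimage_zero_mem_codiscreteWithin ht0 (mem_univ _) isConnected_univ)
      rw [Measure.restrict_univ, mem_ae_iff] at h3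
      refine measure_mono_null (fun t ht => ?_) h3
      simpa using ht.2) hε
  refine ⟨δ, hδ, fun a b b' ω ha hb hb' h1 h2 h3 h4 => h (a, b, b', ω) ⟨⟨abs_le.1 ha, ?_, ?_, h2, h3⟩,
    h1, ?_⟩⟩
  · exact ⟨fun j => (abs_le.1 (hb j)).1, fun j => (abs_le.1 (hb j)).2⟩
  · exact ⟨fun j => (abs_le.1 (hb' j)).1, fun j => (abs_le.1 (hb' j)).2⟩
  · simp only [mem_iInter, mem_setOf_eq]
    exact h4

theorem exists_eps : ∃ ε : ENNReal, 0 < ε ∧ ∀ (s : ℝ), 0 < s → ∀ N : Set E4, MeasurableSet N →
    ∀ x : E4, (∃ e : E4, ‖e‖ ≤ 1 ∧ ∀ y, ‖y - x‖ ≤ 2 * s →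
      volume {t ∈ Icc (0 : ℝ) 1 | y + (s * t) • e ∈ N} ≤ ε) →
    Rop s (N.indicator 1) x ≤ 1 / 12 := by
  set v := (volume (Metric.closedBall (0 : E4) 2)).toReal with hv
  have hv0 : 0 ≤ v := ENNReal.toReal_nonneg
  have hc0 := c0_pos
  refine ⟨ENNReal.ofReal (c0 / (12 * (v + 1))), ENNReal.ofReal_pos.2 (by positivity), ?_⟩
  rintro s hs N hN x ⟨e, he, h⟩
  set ε := ENNReal.ofReal (c0 / (12 * (v + 1))) with hε
  let Q : Set E4 := {z | ‖z‖ ≤ 1 ∧ x - s • z ∈ N}
  have hQ : MeasurableSet Q :=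
    MeasurableSet.inter (s₁ := {z : E4 | ‖z‖ ≤ 1}) (s₂ := (fun z : E4 => x - s • z) ⁻¹' N)
      (measurableSet_le (by fun_prop) measurable_const)
      (measurableSet_preimage (f := fun z : E4 => x - s • z) (by fun_prop) hN)
  let W : Set (ℝ × E4) := (fun p => p.2 + (-(p.1 • e))) ⁻¹' Q
  have hW : MeasurableSet W := measurableSet_preimage (by fun_prop) hQ
  have e1 : ((volume : Measure ℝ).restrict (Icc 0 1)).prod (volume : Measure E4) W = volume Q := by
    rw [Measure.prod_apply hW]
    have : ∀ t : ℝ, volume (Prod.mk t ⁻¹' W) = volume Q := fun t =>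
      measure_preimage_add_right volume (-(t • e)) Q
    simp [this]
  have e2 : volume Q ≤ ε * volume (Metric.closedBall (0 : E4) 2) := by
    rw [← e1, Measure.prod_apply_symm hW, ← lintegral_indicator_const Metric.isClosed_closedBall.measurableSet]
    refine lintegral_mono fun z => ?_
    rw [Measure.restrict_apply' measurableSet_Icc]
    by_cases hz : z ∈ Metric.closedBall (0 : E4) 2
    · rw [indicator_of_mem hz]
      refine (measure_mono fun t ht => ?_).trans (h (x - s • z) ?_)
      · refine ⟨ht.2, ?_⟩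
        have := ht.1.2
        simp only at this
        convert this using 1
        rw [smul_add, smul_neg, smul_smul]; abel
      · rw [sub_sub_cancel_left, norm_neg, norm_smul, Real.norm_eq_abs, abs_of_pos hs]
        have : ‖z‖ ≤ 2 := by simpa using hz
        nlinarith
    · rw [indicator_of_notMem hz]
      refine le_of_eq (measure_mono_null (fun t ht => ?_) measure_empty)
      apply hz
      have h1 : ‖z + -(t • e)‖ ≤ 1 := ht.1.1
      have h2 : ‖t • e‖ ≤ 1 := by
        rw [norm_smul, Real.norm_eq_abs, abs_of_nonneg ht.2.1]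
        nlinarith [ht.2.2, ht.2.1, norm_nonneg e]
      have h3 := norm_add_le (z + -(t • e)) (t • e)
      simp only [neg_add_cancel_right] at h3
      simp only [Metric.mem_closedBall, dist_zero_right]
      linarith
  have hfin : volume (Metric.closedBall (0 : E4) 2) ≠ ⊤ := measure_closedBall_lt_top.ne
  have e3 : (volume Q).toReal ≤ c0 / (12 * (v + 1)) * v := by
    have := ENNReal.toReal_mono (ENNReal.mul_ne_top ENNReal.ofReal_ne_top hfin) e2
    rwa [ENNReal.toReal_mul, ENNReal.toReal_ofReal (by positivity)] at this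
  have hQfin : volume Q ≠ ⊤ := (e2.trans_lt (ENNReal.mul_lt_top ENNReal.ofReal_lt_top hfin.lt_top)).ne
  have hi := Rop_int s (f := N.indicator 1) (measurable_one.indicator hN) (B := 1)
    (fun y => by by_cases h : y ∈ N <;> simp [h]) x
  have e4 : Rop s (N.indicator 1) x ≤ ∫ z, Q.indicator (fun _ => 1 / c0) z := by
    refine integral_mono hi ((integrable_indicator_iff hQ).2 (integrableOn_const hQfin)) fun z => ?_
    by_cases hz : 1 < ‖z‖
    · simp only [rho0_zero hz, zero_div, mul_zero]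
      exact indicator_nonneg (fun _ _ => by positivity) z
    · by_cases hm : x - s • z ∈ N
      · have : z ∈ Q := ⟨not_lt.1 hz, hm⟩
        simp only [indicator_of_mem hm, indicator_of_mem this, Pi.one_apply, one_mul]
        gcongr
        exact rho0_le z
      · simp only [indicator_of_notMem hm, zero_mul]
        exact indicator_nonneg (fun _ _ => by positivity) z
  rw [integral_indicator_const _ hQ, smul_eq_mul, Measure.real] at e4
  calc _ ≤ _ := e4
    _ ≤ c0 / (12 * (v + 1)) * v * (1 / c0) := by gcongr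
    _ = v / (12 * (v + 1)) := by field_simp
    _ ≤ 1 / 12 := by
      rw [div_le_div_iff₀ (by positivity) (by norm_num)]; linarith

end Pool.Agent.H198Z.Landis
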