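import Pool.Agent.H198Z.Landis.D

set_option autoImplicit false

open MeasureTheory Set Filter Topology

namespace Pool.Agent.H198Z.Landis

/-! ### the transition function -/

noncomputable def tau : ℝ → ℝ := Real.smoothTransition
noncomputable def tau1 : ℝ → ℝ := deriv tau
noncomputable def tau2 : ℝ → ℝ := deriv tau1

theorem tau_cd (n : ℕ) : ContDiff ℝ n tau := Real.smoothTransition.contDiff
theorem tau1_cd (n : ℕ) : ContDiff ℝ n tau1 := by
  have h : ContDiff ℝ ((n : WithTop ℕ∞) + 1) tau := by exact_mod_cast tau_cd (n + 1)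
  exact h.deriv'
theorem tau2_cont : Continuous tau2 := (tau1_cd 1).continuous_deriv (by norm_num)
theorem tau_d (t : ℝ) : HasDerivAt tau (tau1 t) t :=
  ((tau_cd 1).differentiable (by norm_num) t).hasDerivAt
theorem tau1_d (t : ℝ) : HasDerivAt tau1 (tau2 t) t :=
  ((tau1_cd 1).differentiable (by norm_num) t).hasDerivAt
theorem tau_zero {t : ℝ} (h : t ≤ 0) : tau t = 0 := Real.smoothTransition.zero_of_nonpos h
theorem tau_one {t : ℝ} (h : 1 ≤ t) : tau t = 1 := Real.smoothTransition.one_of_one_le h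
theorem tau_nonneg (t : ℝ) : 0 ≤ tau t := Real.smoothTransition.nonneg t
theorem tau_le (t : ℝ) : tau t ≤ 1 := Real.smoothTransition.le_one t

theorem tau1_supp : HasCompactSupport tau1 := by
  refine HasCompactSupport.intro (isCompact_Icc (a := (0 : ℝ)) (b := 1)) fun t ht => ?_
  rw [mem_Icc, not_and_or, not_le, not_le] at ht
  rcases ht with h | h
  · have : tau =ᶠ[𝓝 t] fun _ => 0 := by
      filter_upwards [Iio_mem_nhds h] with y hy using tau_zero (le_of_lt (mem_Iio.1 hy))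
    rw [tau1, this.deriv_eq, deriv_const]
  · have : tau =ᶠ[𝓝 t] fun _ => 1 := by
      filter_upwards [Ioi_mem_nhds h] with y hy using tau_one (le_of_lt (mem_Ioi.1 hy))
    rw [tau1, this.deriv_eq, deriv_const]

theorem exists_Btau : ∃ B : ℝ, 0 ≤ B ∧ (∀ t, |tau1 t| ≤ B) ∧ ∀ t, |tau2 t| ≤ B := by
  obtain ⟨B1, h1⟩ := (tau1_cd 0).continuous.bounded_above_of_compact_support tau1_supp
  obtain ⟨B2, h2⟩ := tau2_cont.bounded_above_of_compact_support tau1_supp.deriv
  exact ⟨max B1 B2, ((norm_nonneg _).trans (h1 0)).trans (le_max_left _ _),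
    fun t => (h1 t).trans (le_max_left _ _), fun t => (h2 t).trans (le_max_right _ _)⟩

noncomputable def Bt : ℝ := exists_Btau.choose
theorem Bt_nonneg : 0 ≤ Bt := exists_Btau.choose_spec.1
theorem tau1_le (t : ℝ) : |tau1 t| ≤ Bt := exists_Btau.choose_spec.2.1 t
theorem tau2_le (t : ℝ) : |tau2 t| ≤ Bt := exists_Btau.choose_spec.2.2 t

/-! ### slowly varying functions -/

structure Slow (η B : ℝ) (g : E4 → ℝ) : Prop where
  cd : ContDiff ℝ 2 g
  b0 : ∀ x, |g x| ≤ 1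
  b1 : ∀ i x, |D i g x| ≤ B * η
  b2 : ∀ i x, |D i (D i g) x| ≤ B * η

def mulC (B B' : ℝ) : ℝ := B + B' + 2 * (B * B')

theorem mulC_nonneg {B B' : ℝ} (h : 0 ≤ B) (h' : 0 ≤ B') : 0 ≤ mulC B B' := by
  unfold mulC; positivity

theorem Slow.mul {η B B' : ℝ} {f g : E4 → ℝ} (hη : 0 ≤ η) (hη1 : η ≤ 1) (hB : 0 ≤ B) (hB' : 0 ≤ B')
    (hf : Slow η B f) (hg : Slow η B' g) : Slow η (mulC B B') (fun x => f x * g x) := by
  have key : ∀ a b c : ℝ, |a| ≤ c → |b| ≤ 1 → |a * b| ≤ c := by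
    intro a b c h1 h2
    rw [abs_mul]
    nlinarith [abs_nonneg a, abs_nonneg b]
  have hBB : 0 ≤ B * B' * η := by positivity
  refine ⟨hf.cd.mul hg.cd, fun x => key _ _ _ (hf.b0 x) (hg.b0 x), fun i x => ?_, fun i x => ?_⟩
  · rw [D_mul (diff2 hf.cd) (diff2 hg.cd)]
    have h1 := key _ _ _ (hf.b1 i x) (hg.b0 x)
    have h2 := key _ _ _ (hg.b1 i x) (hf.b0 x)
    rw [mul_comm] at h2
    have := abs_add_le (D i f x * g x) (f x * D i g x)
    simp only [mulC]
    linarith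
  · rw [DD_mul hf.cd hg.cd]
    have h1 := key _ _ _ (hf.b2 i x) (hg.b0 x)
    have h2 := key _ _ _ (hg.b2 i x) (hf.b0 x)
    rw [mul_comm] at h2
    have h3 : |2 * (D i f x * D i g x)| ≤ 2 * (B * B' * η) := by
      rw [abs_mul, abs_mul, abs_two]
      have : |D i f x| * |D i g x| ≤ (B * η) * (B' * η) :=
        mul_le_mul (hf.b1 i x) (hg.b1 i x) (abs_nonneg _) (by positivity)
      nlinarith
    have := abs_add_three (D i (D i f) x * g x) (2 * (D i f x * D i g x)) (f x * D i (D i g) x)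
    simp only [mulC]
    linarith

theorem slow_tau {η : ℝ} (hη : 0 ≤ η) (hη1 : η ≤ 1) {l : E4 → ℝ} (hl : ContDiff ℝ 2 l)
    (h1 : ∀ i x, |D i l x| ≤ 2 * η) (h2 : ∀ i x, |D i (D i l) x| ≤ 2 * η) :
    Slow η (6 * Bt) (fun x => tau (l x)) := by
  have hB := Bt_nonneg
  refine ⟨(tau_cd 2).comp hl, fun x => ?_, fun i x => ?_, fun i x => ?_⟩
  · rw [abs_of_nonneg (tau_nonneg _)]; exact tau_le _
  · rw [D_comp tau_d (diff2 hl), abs_mul]
    have := mul_le_mul (tau1_le (l x)) (h1 i x) (abs_nonneg _) hB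
    nlinarith [mul_nonneg hB hη]
  · rw [DD_comp tau_d tau1_d hl]
    have a1 : |tau2 (l x) * D i l x ^ 2| ≤ Bt * (2 * η) ^ 2 := by
      rw [abs_mul, abs_pow]
      exact mul_le_mul (tau2_le _) (pow_le_pow_left₀ (abs_nonneg _) (h1 i x) 2) (by positivity) hB
    have a2 : |tau1 (l x) * D i (D i l) x| ≤ Bt * (2 * η) := by
      rw [abs_mul]
      exact mul_le_mul (tau1_le _) (h2 i x) (abs_nonneg _) hB
    have := abs_add_le (tau2 (l x) * D i l x ^ 2) (tau1 (l x) * D i (D i l) x)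
    nlinarith [mul_nonneg hB hη, mul_nonneg (mul_nonneg hB hη) (sub_nonneg.2 hη1)]

/-! ### the bracket function -/

noncomputable def G (t : ℝ) : ℝ := √(1 + t ^ 2)
noncomputable def g (t : ℝ) : ℝ := t / G t
noncomputable def g1 (t : ℝ) : ℝ := 1 / G t ^ 3

theorem G_sq (t : ℝ) : G t ^ 2 = 1 + t ^ 2 := Real.sq_sqrt (by positivity)
theorem G_ge_one (t : ℝ) : 1 ≤ G t := Real.le_sqrt_of_sq_le (by nlinarith [sq_nonneg t])
theorem G_pos (t : ℝ) : 0 < G t := lt_of_lt_of_le one_pos (G_ge_one t)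
theorem abs_le_G (t : ℝ) : |t| ≤ G t := Real.le_sqrt_of_sq_le (by rw [sq_abs]; linarith)
theorem G_neg (t : ℝ) : G (-t) = G t := by simp [G]
theorem G_mono {a b : ℝ} (h : a ^ 2 ≤ b ^ 2) : G a ≤ G b := Real.sqrt_le_sqrt (by linarith)

theorem G_d (t : ℝ) : HasDerivAt G (g t) t := by
  have h1 : HasDerivAt (fun t : ℝ => 1 + t ^ 2) (2 * t) t := by
    simpa using (hasDerivAt_pow 2 t).const_add 1
  have := h1.sqrt (by positivity)
  have e : g t = 2 * t / (2 * √(1 + t ^ 2)) := by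
    unfold g G
    field_simp
  rw [e]
  exact this

theorem g_d (t : ℝ) : HasDerivAt g (g1 t) t := by
  have := (hasDerivAt_id t).div (G_d t) (G_pos t).ne'
  have e : g1 t = (1 * G t - id t * g t) / G t ^ 2 := by
    have h1 := G_sq t
    have h2 := (G_pos t).ne'
    simp only [g1, g, id]
    field_simp
    linarith
  rw [e]
  exact this

theorem g_abs (t : ℝ) : |g t| ≤ 1 := by
  rw [g, abs_div, abs_of_pos (G_pos t), div_le_one (G_pos t)]
  exact abs_le_G t

theorem g1_nonneg (t : ℝ) : 0 ≤ g1 t := by have := G_pos t; unfold g1; positivity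
theorem g1_abs (t : ℝ) : |g1 t| ≤ 1 := by
  rw [abs_of_nonneg (g1_nonneg t), g1, div_le_one (pow_pos (G_pos t) 3)]
  exact one_le_pow₀ (G_ge_one t)

theorem G_cont : Continuous G := by unfold G; fun_prop
theorem g_cont : Continuous g := continuous_id.div G_cont fun t => (G_pos t).ne'
theorem g1_cont : Continuous g1 :=
  continuous_const.div (G_cont.pow 3) fun t => (pow_pos (G_pos t) 3).ne'

theorem lip1 {f f' : ℝ → ℝ} (h : ∀ t, HasDerivAt f (f' t) t) (hb : ∀ t, |f' t| ≤ 1) (a b : ℝ) :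
    |f a - f b| ≤ |a - b| := by
  have := convex_univ.norm_image_sub_le_of_norm_hasDerivWithin_le (f := f) (f' := f') (C := 1)
    (fun t _ => (h t).hasDerivWithinAt) (fun t _ => hb t) (mem_univ b) (mem_univ a)
  simpa using this

theorem G_lip (a b : ℝ) : |G a - G b| ≤ |a - b| := lip1 G_d g_abs a b
theorem g_lip (a b : ℝ) : |g a - g b| ≤ |a - b| := lip1 g_d g1_abs a b
theorem g_nonneg {t : ℝ} (h : 0 ≤ t) : 0 ≤ g t := div_nonneg h (G_pos t).le
theorem g_sq (t : ℝ) : g t ^ 2 = t ^ 2 / (1 + t ^ 2) := by rw [g, div_pow, G_sq]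

/-! ### the smooth radius -/

noncomputable def R (η : ℝ) (x : E4) : ℝ := G (η ^ 2 * ‖x‖)

theorem R_eq (η : ℝ) : R η = fun x => √(1 + η ^ 4 * ‖x‖ ^ 2) := by
  ext x; simp only [R, G]; congr 1; ring

theorem q_cd (η : ℝ) : ContDiff ℝ 2 (fun x : E4 => 1 + η ^ 4 * ‖x‖ ^ 2) :=
  contDiff_const.add (contDiff_const.mul (contDiff_norm_sq ℝ))

theorem R_cd (η : ℝ) : ContDiff ℝ 2 (R η) := by
  rw [R_eq]
  exact (q_cd η).sqrt fun x => by positivity

theorem R_sq (η : ℝ) (x : E4) : R η x ^ 2 = 1 + η ^ 4 * ‖x‖ ^ 2 := by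
  rw [R, G_sq]; ring

theorem R_ge (η : ℝ) (x : E4) : 1 ≤ R η x := G_ge_one _
theorem R_pos (η : ℝ) (x : E4) : 0 < R η x := G_pos _

noncomputable def nn (η : ℝ) (i : Fin 4) (x : E4) : ℝ := η ^ 2 * x i / R η x

theorem D_R (η : ℝ) (i : Fin 4) : D i (R η) = fun x => η ^ 2 * nn η i x := by
  have h1 := D_mul (diff2 (R_cd η)) (diff2 (R_cd η)) i
  have h2 : (fun x => R η x * R η x) = fun x : E4 => 1 + η ^ 4 * ‖x‖ ^ 2 := by
    ext x; rw [← R_sq]; ring
  have hn : Differentiable ℝ (fun x : E4 => ‖x‖ ^ 2) := diff2 (contDiff_norm_sq ℝ)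
  rw [h2, D_add (differentiable_const _) ((differentiable_const _).fun_mul hn), D_const,
    D_mul (differentiable_const _) hn, D_const, D_normsq] at h1
  ext x
  have h3 := congrFun h1 x
  have h4 := (R_pos η x).ne'
  simp only [nn] at h3 ⊢
  field_simp
  linarith

theorem nn_mul (η : ℝ) (i : Fin 4) : (fun x => nn η i x * R η x) = fun x : E4 => η ^ 2 * x i := by
  ext x
  have h4 := (R_pos η x).ne'
  simp only [nn]; field_simp

theorem nn_diff (η : ℝ) (i : Fin 4) : Differentiable ℝ (nn η i) :=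
  diff2 ((contDiff_const.mul (contDiff_coord i)).div (R_cd η) fun x => (R_pos η x).ne')

theorem D_nn (η : ℝ) (i : Fin 4) (x : E4) :
    D i (nn η i) x = η ^ 2 * (1 - nn η i x ^ 2) / R η x := by
  have h1 := D_mul (nn_diff η i) (diff2 (R_cd η)) i
  rw [nn_mul, D_mul (differentiable_const _) (diff2 (contDiff_coord i)), D_const, D_coord, D_R] at h1
  have h3 := congrFun h1 x
  have h4 := (R_pos η x).ne'
  simp only [if_true] at h3
  field_simp
  linarith

theorem DD_R (η : ℝ) (i : Fin 4) (x : E4) :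
    D i (D i (R η)) x = η ^ 4 * (1 - nn η i x ^ 2) / R η x := by
  rw [D_R, D_mul (differentiable_const _) (nn_diff η i), D_const]
  simp only [D_nn]; ring

theorem nn_sum (η : ℝ) (x : E4) : ∑ i, nn η i x ^ 2 = g (η ^ 2 * ‖x‖) ^ 2 := by
  simp only [nn, div_pow, mul_pow, g]
  rw [← Finset.sum_div, ← Finset.mul_sum, ← normsq_eq]
  rfl

theorem nn_sq_le (η : ℝ) (i : Fin 4) (x : E4) : nn η i x ^ 2 ≤ 1 := by
  have h1 : nn η i x ^ 2 ≤ ∑ i, nn η i x ^ 2 :=
    Finset.single_le_sum (f := fun i => nn η i x ^ 2) (fun _ _ => sq_nonneg _) (Finset.mem_univ i)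
  rw [nn_sum] at h1
  have h2 := g_abs (η ^ 2 * ‖x‖)
  have h3 : g (η ^ 2 * ‖x‖) ^ 2 ≤ 1 := by rw [← sq_abs]; exact pow_le_one₀ (abs_nonneg _) h2
  linarith

theorem nn_abs (η : ℝ) (i : Fin 4) (x : E4) : |nn η i x| ≤ 1 := by
  have := nn_sq_le η i x
  rw [← sq_abs] at this
  nlinarith [abs_nonneg (nn η i x)]

theorem aux_div (η : ℝ) (i : Fin 4) (x : E4) : |(1 - nn η i x ^ 2) / R η x| ≤ 1 := by
  have h1 := nn_sq_le η i x
  have h2 := R_ge η x
  rw [abs_of_nonneg (div_nonneg (by linarith) (by linarith)), div_le_one (by linarith)]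
  nlinarith [sq_nonneg (nn η i x)]

theorem slow_tauR {η : ℝ} (hη : 0 ≤ η) (hη1 : η ≤ 1) (a c : ℝ) (ha : |a| ≤ 1) :
    Slow η (6 * Bt) (fun x => tau (a * R η x + c)) := by
  have hd : ∀ i, D i (fun x => a * R η x + c) = fun x => a * D i (R η) x := by
    intro i
    rw [D_add ((differentiable_const _).fun_mul (diff2 (R_cd η))) (differentiable_const _),
      D_const, D_mul (differentiable_const _) (diff2 (R_cd η)), D_const]
    simp
  have h2 : η ^ 2 ≤ η := by nlinarith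
  have h4 : η ^ 4 ≤ η := by nlinarith [sq_nonneg η]
  refine slow_tau hη hη1 ((contDiff_const.mul (R_cd η)).add contDiff_const) (fun i x => ?_)
    (fun i x => ?_)
  · rw [hd, D_R]
    simp only [abs_mul, abs_pow, abs_of_nonneg hη]
    have := nn_abs η i x
    calc |a| * (η ^ 2 * |nn η i x|) ≤ 1 * (η * 1) := by gcongr
      _ ≤ 2 * η := by linarith
  · rw [hd, D_mul (differentiable_const _) (diffD (R_cd η) i), D_const]
    simp only [zero_mul, zero_add, DD_R, mul_div_assoc, abs_mul, abs_pow, abs_of_nonneg hη]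
    have := aux_div η i x
    calc |a| * (η ^ 4 * |(1 - nn η i x ^ 2) / R η x|) ≤ 1 * (η * 1) := by gcongr
      _ ≤ 2 * η := by linarith

theorem slow_tauL {η : ℝ} (hη : 0 ≤ η) (hη1 : η ≤ 1) (a c : ℝ) (ha : |a| ≤ 2 * η) (j : Fin 4) :
    Slow η (6 * Bt) (fun x => tau (a * x j + c)) := by
  have hd : ∀ i, D i (fun x : E4 => a * x j + c) = fun _ => a * if i = j then 1 else 0 := by
    intro i
    rw [D_add ((differentiable_const _).fun_mul (diff2 (contDiff_coord j))) (differentiable_const _),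
      D_const, D_mul (differentiable_const _) (diff2 (contDiff_coord j)), D_const, D_coord]
    simp
  refine slow_tau hη hη1 ((contDiff_const.mul (contDiff_coord j)).add contDiff_const) (fun i x => ?_)
    (fun i x => ?_)
  · rw [hd]
    split_ifs
    · simpa using ha
    · simp [hη]
  · rw [hd, D_const]; simp [hη]

/-! ### the exponent -/

noncomputable def sig (C η r : ℝ) : ℝ := C * (G (r - 5) - G 2) / η ^ 2

theorem sig_d (C η r : ℝ) : HasDerivAt (sig C η) (C * g (r - 5) / η ^ 2) r := by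
  have := ((((G_d (r - 5)).comp r ((hasDerivAt_id r).sub_const 5)).sub_const (G 2)).const_mul
    C).div_const (η ^ 2)
  rw [mul_one] at this
  exact this

theorem sig_d2 (C η r : ℝ) :
    HasDerivAt (fun r => C * g (r - 5) / η ^ 2) (C * g1 (r - 5) / η ^ 2) r := by
  have := (((g_d (r - 5)).comp r ((hasDerivAt_id r).sub_const 5)).const_mul C).div_const (η ^ 2)
  simpa using this

noncomputable def S (C η : ℝ) (x : E4) : ℝ := sig C η (R η x)

theorem S_cd (C η : ℝ) : ContDiff ℝ 2 (S C η) :=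
  (contDiff_of_derivs (sig_d C η) (sig_d2 C η) (by have := g1_cont; fun_prop)).comp (R_cd η)

theorem D_S (C : ℝ) {η : ℝ} (hη : η ≠ 0) (i : Fin 4) (x : E4) :
    D i (S C η) x = C * g (R η x - 5) * nn η i x := by
  have := D_comp (sig_d C η) (diff2 (R_cd η)) i
  unfold S
  rw [this, D_R]
  field_simp

theorem DD_S_le {C : ℝ} (hC : 0 ≤ C) {η : ℝ} (hη : 0 < η) (hη1 : η ≤ 1) (i : Fin 4) (x : E4) :
    |D i (D i (S C η)) x| ≤ 2 * C * η := by
  have := DD_comp (sig_d C η) (sig_d2 C η) (R_cd η) i x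
  unfold S
  rw [this, DD_R, D_R]
  have e : C * g1 (R η x - 5) / η ^ 2 * (η ^ 2 * nn η i x) ^ 2 +
      C * g (R η x - 5) / η ^ 2 * (η ^ 4 * (1 - nn η i x ^ 2) / R η x) =
      C * η ^ 2 * (g1 (R η x - 5) * nn η i x ^ 2 +
        g (R η x - 5) * ((1 - nn η i x ^ 2) / R η x)) := by
    field_simp
  simp only
  rw [e, abs_mul, abs_of_nonneg (by positivity : 0 ≤ C * η ^ 2)]
  have a1 : |g1 (R η x - 5) * nn η i x ^ 2| ≤ 1 := by
    rw [abs_mul, abs_pow]
    exact mul_le_one₀ (g1_abs _) (by positivity) (pow_le_one₀ (abs_nonneg _) (nn_abs η i x))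
  have a2 : |g (R η x - 5) * ((1 - nn η i x ^ 2) / R η x)| ≤ 1 := by
    rw [abs_mul]
    exact mul_le_one₀ (g_abs _) (by positivity) (aux_div η i x)
  have a3 := abs_add_le (g1 (R η x - 5) * nn η i x ^ 2)
    (g (R η x - 5) * ((1 - nn η i x ^ 2) / R η x))
  calc _ ≤ C * η ^ 2 * 2 := by gcongr; linarith
    _ ≤ 2 * C * η := by nlinarith [mul_nonneg hC hη.le]

/-! ### one wave -/

theorem D_inner (ξ : E4) (i : Fin 4) : D i (fun x : E4 => inner ℝ ξ x) = fun _ => ξ i := by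
  ext x
  have : (fun x : E4 => inner ℝ ξ x) = innerSL ℝ ξ := rfl
  rw [this, D, ContinuousLinearMap.fderiv]
  simp [ev, EuclideanSpace.inner_single_right]

theorem inner_cd (ξ : E4) : ContDiff ℝ 2 (fun x : E4 => inner ℝ ξ x) := (innerSL ℝ ξ).contDiff

theorem wave_cd {Sf a : E4 → ℝ} (hS : ContDiff ℝ 2 Sf) (ha : ContDiff ℝ 2 a) (ξ : E4) :
    ContDiff ℝ 2 (fun x => Real.exp (-Sf x) * (a x * Real.cos (inner ℝ ξ x))) :=
  (hS.neg.exp).mul (ha.mul (inner_cd ξ).cos)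

theorem wave_Lap {Sf a : E4 → ℝ} (hS : ContDiff ℝ 2 Sf) (ha : ContDiff ℝ 2 a) (ξ x : E4) :
    Lap (fun x => Real.exp (-Sf x) * (a x * Real.cos (inner ℝ ξ x))) x =
      Real.exp (-Sf x) * ((∑ i, D i Sf x ^ 2 - ‖ξ‖ ^ 2) * (a x * Real.cos (inner ℝ ξ x))
        + 2 * (∑ i, D i Sf x * ξ i) * (a x * Real.sin (inner ℝ ξ x))
        + ∑ i, (-(D i (D i Sf) x * (a x * Real.cos (inner ℝ ξ x)))
          - 2 * (D i Sf x * D i a x * Real.cos (inner ℝ ξ x))
          + D i (D i a) x * Real.cos (inner ℝ ξ x)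
          - 2 * (ξ i * D i a x * Real.sin (inner ℝ ξ x)))) := by
  have he : ∀ t, HasDerivAt (fun t => Real.exp (-t)) (-Real.exp (-t)) t := fun t => by
    simpa using (hasDerivAt_neg t).exp
  have he2 : ∀ t, HasDerivAt (fun t => -Real.exp (-t)) (Real.exp (-t)) t := fun t => by
    have := (he t).neg
    rw [neg_neg] at this
    exact this
  have hc2 : ∀ t, HasDerivAt (fun t => -Real.sin t) (-Real.cos t) t := fun t =>
    (Real.hasDerivAt_sin t).neg
  have hcos : ContDiff ℝ 2 (fun x : E4 => Real.cos (inner ℝ ξ x)) := (inner_cd ξ).cos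
  unfold Lap
  rw [normsq_eq, ← Finset.sum_sub_distrib, Finset.sum_mul, Finset.mul_sum, Finset.sum_mul,
    ← Finset.sum_add_distrib, ← Finset.sum_add_distrib, Finset.mul_sum]
  refine Finset.sum_congr rfl fun i _ => ?_
  rw [DD_mul hS.neg.exp (ha.mul hcos), DD_mul ha hcos, D_mul (diff2 ha) (diff2 hcos),
    DD_comp he he2 hS, D_comp he (diff2 hS), DD_comp Real.hasDerivAt_cos hc2 (inner_cd ξ),
    D_comp Real.hasDerivAt_cos (diff2 (inner_cd ξ)), D_inner, D_const]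
  ring

theorem wave_bound {Sf a : E4 → ℝ} (hS : ContDiff ℝ 2 Sf) {η B C K V : ℝ} (hη : 0 ≤ η)
    (hB : 0 ≤ B) (hC : 0 ≤ C) (ha : Slow η B a)
    (ξ x : E4) (h1 : ∀ i, |D i Sf x| ≤ C) (h2 : ∀ i, |D i (D i Sf) x| ≤ 2 * C * η)
    (h3 : ∀ i, |ξ i| ≤ C) (h4 : |∑ i, D i Sf x ^ 2 - ‖ξ‖ ^ 2 - V| ≤ K * η)
    (h5 : |∑ i, D i Sf x * ξ i| ≤ K * η) :
    |Lap (fun x => Real.exp (-Sf x) * (a x * Real.cos (inner ℝ ξ x))) x -
      V * (Real.exp (-Sf x) * (a x * Real.cos (inner ℝ ξ x)))| ≤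
      (3 * K + 4 * (2 * C + 4 * (C * B) + B)) * η * Real.exp (-Sf x) := by
  rw [wave_Lap hS ha.cd]
  set c := Real.cos (inner ℝ ξ x)
  set s := Real.sin (inner ℝ ξ x)
  have hc : |c| ≤ 1 := Real.abs_cos_le_one _
  have hs : |s| ≤ 1 := Real.abs_sin_le_one _
  have key : ∀ a b c : ℝ, |a| ≤ c → |b| ≤ 1 → |a * b| ≤ c := by
    intro a b c h1 h2
    rw [abs_mul]
    nlinarith [abs_nonneg a, abs_nonneg b]
  have hac := key _ _ _ (ha.b0 x) hc
  have has := key _ _ _ (ha.b0 x) hs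
  have t1 := key _ _ _ h4 hac
  have t2 := key _ _ _ h5 has
  have t3 : ∀ i, |-(D i (D i Sf) x * (a x * c)) - 2 * (D i Sf x * D i a x * c)
      + D i (D i a) x * c - 2 * (ξ i * D i a x * s)| ≤ (2 * C + 4 * (C * B) + B) * η := by
    intro i
    have u1 := key _ _ _ (h2 i) hac
    have u2 : |D i Sf x * D i a x| ≤ C * (B * η) := by
      rw [abs_mul]; exact mul_le_mul (h1 i) (ha.b1 i x) (abs_nonneg _) hC
    have u3 := key _ _ _ u2 hc
    have u4 := key _ _ _ (ha.b2 i x) hc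
    have u5 : |ξ i * D i a x| ≤ C * (B * η) := by
      rw [abs_mul]; exact mul_le_mul (h3 i) (ha.b1 i x) (abs_nonneg _) hC
    have u6 := key _ _ _ u5 hs
    rw [abs_le] at u1 u3 u4 u6 ⊢
    constructor <;> nlinarith [u1.1, u1.2, u3.1, u3.2, u4.1, u4.2, u6.1, u6.2]
  have t4 := (Finset.abs_sum_le_sum_abs _ Finset.univ).trans (Finset.sum_le_sum fun i _ => t3 i)
  simp only [Finset.sum_const, Finset.card_univ, Fintype.card_fin, nsmul_eq_mul, Nat.cast_ofNat] at t4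
  set Z := ∑ i, (-(D i (D i Sf) x * (a x * c)) - 2 * (D i Sf x * D i a x * c)
      + D i (D i a) x * c - 2 * (ξ i * D i a x * s))
  have e : Real.exp (-Sf x) * ((∑ i, D i Sf x ^ 2 - ‖ξ‖ ^ 2) * (a x * c)
        + 2 * (∑ i, D i Sf x * ξ i) * (a x * s) + Z) - V * (Real.exp (-Sf x) * (a x * c)) =
      ((∑ i, D i Sf x ^ 2 - ‖ξ‖ ^ 2 - V) * (a x * c)
        + 2 * ((∑ i, D i Sf x * ξ i) * (a x * s)) + Z) * Real.exp (-Sf x) := by ring
  rw [e, abs_mul, abs_of_pos (Real.exp_pos _)]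
  refine mul_le_mul_of_nonneg_right ?_ (Real.exp_pos _).le
  rw [abs_le] at t1 t2 t4 ⊢
  constructor <;> nlinarith [t1.1, t1.2, t2.1, t2.2, t4.1, t4.2]

end Pool.Agent.H198Z.Landis
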