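import Pool.Agent.H198Z.Landis.E

set_option autoImplicit false

open MeasureTheory Set Filter Topology

namespace Pool.Agent.H198Z.Landis

/-! ### tangent directions -/

noncomputable def Dir (a b : ℝ) (v : E4) : E4 :=
  !₂[-a * v 1 - b * v 2, a * v 0 + b * v 3, -a * v 3 + b * v 0, a * v 2 - b * v 1]

theorem inner_eq (u v : E4) : inner ℝ u v = ∑ i, u i * v i := by
  simp [PiLp.inner_apply, mul_comm]

theorem Dir_sub (a b : ℝ) (v w : E4) : Dir a b v - Dir a b w = Dir a b (v - w) := by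
  ext i
  fin_cases i <;> simp [Dir] <;> ring

theorem Dir_norm {a b : ℝ} (h : a ^ 2 + b ^ 2 = 1) (v : E4) : ‖Dir a b v‖ = ‖v‖ := by
  have : ‖Dir a b v‖ ^ 2 = ‖v‖ ^ 2 := by
    rw [normsq_eq, normsq_eq]
    simp only [Fin.sum_univ_four, Dir]
    simp
    linear_combination (v 0 ^ 2 + v 1 ^ 2 + v 2 ^ 2 + v 3 ^ 2) * h
  exact (pow_left_inj₀ (norm_nonneg _) (norm_nonneg _) two_ne_zero).1 this

theorem Dir_inner (a b c : ℝ) (v : E4) : inner ℝ (Dir a b (c • v)) v = 0 := by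
  rw [inner_eq]
  simp only [Fin.sum_univ_four, Dir]
  simp
  ring

theorem Dir_inner' (a b : ℝ) (v : E4) : inner ℝ (Dir a b v) (Dir 1 0 v) = a * ‖v‖ ^ 2 := by
  rw [inner_eq, normsq_eq]
  simp only [Fin.sum_univ_four, Dir]
  simp
  ring

noncomputable def unit (X : E4) : E4 := ‖X‖⁻¹ • X

theorem unit_norm {X : E4} (h : 1 ≤ ‖X‖) : ‖unit X‖ = 1 := by
  rw [unit, norm_smul, norm_inv, norm_norm, inv_mul_cancel₀ (by linarith)]

theorem unit_lip {X Y : E4} (hX : 1 ≤ ‖X‖) (hY : 1 ≤ ‖Y‖) : ‖unit X - unit Y‖ ≤ 2 * ‖X - Y‖ := by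
  have hX0 : 0 < ‖X‖ := by linarith
  have hY0 : 0 < ‖Y‖ := by linarith
  have e : unit X - unit Y = ‖X‖⁻¹ • (X - Y) + (‖X‖⁻¹ - ‖Y‖⁻¹) • Y := by
    simp only [unit, smul_sub, sub_smul]; abel
  have h1 : ‖X‖⁻¹ ≤ 1 := inv_le_one_of_one_le₀ hX
  have h2 : ‖(‖X‖⁻¹ - ‖Y‖⁻¹) • Y‖ ≤ ‖X - Y‖ := by
    rw [norm_smul, Real.norm_eq_abs]
    have : |‖X‖⁻¹ - ‖Y‖⁻¹| * ‖Y‖ = ‖X‖⁻¹ * |‖Y‖ - ‖X‖| := by
      rw [← abs_of_pos hY0, ← abs_mul, ← abs_of_pos (inv_pos.2 hX0), ← abs_mul]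
      simp only [abs_norm, abs_inv]
      congr 1
      field_simp
    rw [this]
    have h3 := abs_norm_sub_norm_le Y X
    rw [norm_sub_rev] at h3
    calc _ ≤ 1 * ‖X - Y‖ := by gcongr
      _ = _ := one_mul _
  have h3 : ‖‖X‖⁻¹ • (X - Y)‖ ≤ ‖X - Y‖ := by
    rw [norm_smul, norm_inv, norm_norm]
    calc _ ≤ 1 * ‖X - Y‖ := by gcongr
      _ = _ := one_mul _
  rw [e]
  linarith [norm_add_le (‖X‖⁻¹ • (X - Y)) ((‖X‖⁻¹ - ‖Y‖⁻¹) • Y)]

/-! ### the frequency -/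

noncomputable def ww (C : ℝ) (X : E4) : ℝ := C * (|g (G ‖X‖ - 5)| * g ‖X‖)
noncomputable def mu (C : ℝ) (X : E4) : ℝ := max (ww C X) 1

theorem ww_nonneg {C : ℝ} (hC : 0 ≤ C) (X : E4) : 0 ≤ ww C X := by
  have := g_nonneg (norm_nonneg X)
  unfold ww; positivity

theorem ww_le {C : ℝ} (hC : 0 ≤ C) (X : E4) : ww C X ≤ C := by
  have h1 := g_abs (G ‖X‖ - 5)
  have h2 := (le_abs_self _).trans (g_abs ‖X‖)
  have := mul_le_one₀ h1 (g_nonneg (norm_nonneg X)) h2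
  unfold ww
  nlinarith

theorem mu_ge (C : ℝ) (X : E4) : 1 ≤ mu C X := le_max_right _ _
theorem mu_le {C : ℝ} (hC : 1 ≤ C) (X : E4) : mu C X ≤ C := max_le (ww_le (by linarith) X) hC

theorem mu_lip {C : ℝ} (hC : 0 ≤ C) (X Y : E4) : |mu C X - mu C Y| ≤ 2 * C * ‖X - Y‖ := by
  refine (abs_max_sub_max_le_abs _ _ _).trans ?_
  have h0 := abs_norm_sub_norm_le X Y
  have h1 : |(|g (G ‖X‖ - 5)|) - (|g (G ‖Y‖ - 5)|)| ≤ ‖X - Y‖ := by
    refine (abs_abs_sub_abs_le_abs_sub _ _).trans ((g_lip _ _).trans ?_)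
    rw [sub_sub_sub_cancel_right]
    exact (G_lip _ _).trans h0
  have h2 : |g ‖X‖ - g ‖Y‖| ≤ ‖X - Y‖ := (g_lip _ _).trans h0
  have e : ww C X - ww C Y = C * ((|g (G ‖X‖ - 5)| - |g (G ‖Y‖ - 5)|) * g ‖X‖ +
      |g (G ‖Y‖ - 5)| * (g ‖X‖ - g ‖Y‖)) := by unfold ww; ring
  rw [e, abs_mul, abs_of_nonneg hC]
  have h3 : |(|g (G ‖X‖ - 5)| - |g (G ‖Y‖ - 5)|) * g ‖X‖| ≤ ‖X - Y‖ * 1 := by
    rw [abs_mul]; exact mul_le_mul h1 (g_abs _) (abs_nonneg _) (norm_nonneg _)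
  have h4 : |(|g (G ‖Y‖ - 5)|) * (g ‖X‖ - g ‖Y‖)| ≤ 1 * ‖X - Y‖ := by
    rw [abs_mul, abs_abs]; exact mul_le_mul (g_abs _) h2 (abs_nonneg _) zero_le_one
  have := abs_add_le ((|g (G ‖X‖ - 5)| - |g (G ‖Y‖ - 5)|) * g ‖X‖)
    (|g (G ‖Y‖ - 5)| * (g ‖X‖ - g ‖Y‖))
  nlinarith

noncomputable def Xi (C a : ℝ) (X : E4) : E4 := mu C X • Dir a √(1 - a ^ 2) (unit X)

theorem ab_one {a : ℝ} (h : |a| ≤ 1) : a ^ 2 + √(1 - a ^ 2) ^ 2 = 1 := by
  have : a ^ 2 ≤ 1 := by rw [← sq_abs]; exact pow_le_one₀ (abs_nonneg _) h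
  rw [Real.sq_sqrt (by linarith)]; ring

theorem Xi_norm (C : ℝ) {a : ℝ} (h : |a| ≤ 1) {X : E4} (hX : 1 ≤ ‖X‖) : ‖Xi C a X‖ = mu C X := by
  rw [Xi, norm_smul, Dir_norm (ab_one h), unit_norm hX, mul_one, Real.norm_eq_abs,
    abs_of_nonneg (by linarith [mu_ge C X])]

theorem Xi_lip {C : ℝ} (hC : 1 ≤ C) {a : ℝ} (h : |a| ≤ 1) {X Y : E4} (hX : 1 ≤ ‖X‖) (hY : 1 ≤ ‖Y‖) :
    ‖Xi C a X - Xi C a Y‖ ≤ 4 * C * ‖X - Y‖ := by
  have e : Xi C a X - Xi C a Y = (mu C X - mu C Y) • Dir a √(1 - a ^ 2) (unit X) +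
      mu C Y • (Dir a √(1 - a ^ 2) (unit X) - Dir a √(1 - a ^ 2) (unit Y)) := by
    simp only [Xi, smul_sub, sub_smul]; abel
  rw [e, Dir_sub]
  refine (norm_add_le _ _).trans ?_
  rw [norm_smul, norm_smul, Dir_norm (ab_one h), Dir_norm (ab_one h), unit_norm hX, mul_one,
    Real.norm_eq_abs, Real.norm_eq_abs, abs_of_nonneg (a := mu C Y) (by linarith [mu_ge C Y])]
  have h1 := mu_lip (by linarith : 0 ≤ C) X Y
  have h2 : mu C Y * ‖unit X - unit Y‖ ≤ C * (2 * ‖X - Y‖) :=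
    mul_le_mul (mu_le hC Y) (unit_lip hX hY) (norm_nonneg _) (by linarith)
  linarith

theorem Xi_inner (C a : ℝ) (X : E4) : inner ℝ (Xi C a X) X = 0 := by
  rw [Xi, inner_smul_left, unit, Dir_inner, mul_zero]

theorem Xi_inner' (C a : ℝ) {X : E4} (hX : 1 ≤ ‖X‖) :
    inner ℝ (Xi C a X) (Dir 1 0 (unit X)) = mu C X * a := by
  rw [Xi, inner_smul_left, Dir_inner', unit_norm hX]; simp

/-! ### the lattice of waves -/

noncomputable def colE : (Fin 4 → ZMod 4) ≃ Fin 256 := Fintype.equivFinOfCardEq (by simp)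

noncomputable def alph (k : Fin 4 → ℤ) : ℝ := (((colE fun i => (k i : ZMod 4)) : ℕ) + 1 : ℝ) / 257

theorem alph_ge (k : Fin 4 → ℤ) : 1 / 257 ≤ alph k := by
  unfold alph
  have : (0 : ℝ) ≤ ((colE fun i => (k i : ZMod 4)) : ℕ) := Nat.cast_nonneg _
  gcongr; linarith

theorem alph_abs (k : Fin 4 → ℤ) : |alph k| ≤ 1 := by
  rw [abs_of_nonneg (by linarith [alph_ge k]), alph, div_le_one (by norm_num)]
  have : (((colE fun i => (k i : ZMod 4)) : ℕ) : ℝ) ≤ 256 := by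
    exact_mod_cast (colE fun i => (k i : ZMod 4)).2.le
  linarith

noncomputable def idx (η : ℝ) (x : E4) (j : Fin 4 → Fin 4) : Fin 4 → ℤ :=
  fun i => ⌊η * x i⌋ - 1 + (j i : ℕ)

theorem idx_inj (η : ℝ) (x : E4) : Function.Injective (idx η x) := by
  intro j j' h
  ext i
  have := congrFun h i
  simp only [idx, add_right_inj, Nat.cast_inj] at this
  exact this

theorem alph_sep (η : ℝ) (x : E4) {j j' : Fin 4 → Fin 4} (h : j ≠ j') :
    1 / 257 ≤ |alph (idx η x j) - alph (idx η x j')| := by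
  have h1 : (colE fun i => ((idx η x j i : ℤ) : ZMod 4)) ≠ colE fun i => ((idx η x j' i : ℤ) : ZMod 4) := by
    intro hh
    apply h
    have h2 := colE.injective hh
    ext i
    have h3 := congrFun h2 i
    simp only [idx, Int.cast_add, Int.cast_natCast, add_right_inj] at h3
    have key : ∀ a b : Fin 4, ((a : ℕ) : ZMod 4) = ((b : ℕ) : ZMod 4) → (a : ℕ) = b := by decide
    exact key _ _ h3
  unfold alph
  rw [← sub_div, abs_div, abs_of_pos (by norm_num : (0 : ℝ) < 257), add_sub_add_right_eq_sub]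
  gcongr
  have h2 : ((colE fun i => ((idx η x j i : ℤ) : ZMod 4)) : ℕ) ≠
      ((colE fun i => ((idx η x j' i : ℤ) : ZMod 4)) : ℕ) := fun hh => h1 (Fin.ext hh)
  have h3 := Int.one_le_abs (sub_ne_zero.2 (Int.natCast_inj.not.2 h2))
  exact_mod_cast h3

noncomputable def kvec (k : Fin 4 → ℤ) : E4 := WithLp.toLp 2 fun i => (k i : ℝ)

theorem idx_close {η : ℝ} (hη : 0 ≤ η) (x : E4) (j : Fin 4 → Fin 4) :
    ‖η • kvec (idx η x j) - η ^ 2 • x‖ ≤ 4 * η := by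
  have e : η • kvec (idx η x j) - η ^ 2 • x = η • (kvec (idx η x j) - η • x) := by
    rw [smul_sub, smul_smul, pow_two]
  rw [e, norm_smul, Real.norm_eq_abs, abs_of_nonneg hη, mul_comm]
  refine mul_le_mul_of_nonneg_right ?_ hη
  refine le_of_sq_le_sq (a := ‖kvec (idx η x j) - η • x‖) ?_ (by norm_num)
  rw [normsq_eq]
  have : ∀ i, (kvec (idx η x j) - η • x) i ^ 2 ≤ 4 := by
    intro i
    have h1 := Int.floor_le (η * x i)
    have h2 := Int.lt_floor_add_one (η * x i)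
    have h3 : ((j i : ℕ) : ℝ) ≤ 3 := by exact_mod_cast Nat.lt_succ_iff.1 (j i).2
    have h4 : (0 : ℝ) ≤ ((j i : ℕ) : ℝ) := Nat.cast_nonneg _
    simp only [kvec, idx, PiLp.sub_apply, PiLp.smul_apply, smul_eq_mul, Int.cast_add, Int.cast_sub,
      Int.cast_one, Int.cast_natCast]
    nlinarith
  calc _ ≤ ∑ _i : Fin 4, (4 : ℝ) := Finset.sum_le_sum fun i _ => this i
    _ = 4 ^ 2 := by simp; norm_num

theorem mem_idx {η : ℝ} {x : E4} {k : Fin 4 → ℤ} (h : ∀ i, |η * x i - k i| < 2) :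
    ∃ j, idx η x j = k := by
  have : ∀ i, ∃ j : Fin 4, ⌊η * x i⌋ - 1 + (j : ℕ) = k i := by
    intro i
    have h1 := Int.floor_le (η * x i)
    have h2 := Int.lt_floor_add_one (η * x i)
    obtain ⟨h3, h4⟩ := abs_lt.1 (h i)
    have h5 : ⌊η * x i⌋ - 2 < k i := by
      have : ((⌊η * x i⌋ - 2 : ℤ) : ℝ) < k i := by push_cast; linarith
      exact_mod_cast this
    have h6 : k i < ⌊η * x i⌋ + 3 := by
      have : (k i : ℝ) < ((⌊η * x i⌋ + 3 : ℤ) : ℝ) := by push_cast; linarith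
      exact_mod_cast this
    refine ⟨⟨(k i - ⌊η * x i⌋ + 1).toNat, by omega⟩, ?_⟩
    simp only
    omega
  choose j hj using this
  exact ⟨j, funext hj⟩

noncomputable def bump (η : ℝ) (k : Fin 4 → ℤ) (i : Fin 4) (x : E4) : ℝ :=
  tau (2 * η * x i + (2 - 2 * k i)) * tau (-(2 * η) * x i + (2 + 2 * k i))

noncomputable def amp (η : ℝ) (k : Fin 4 → ℤ) (x : E4) : ℝ :=
  tau (1 * R η x + -2) * ((bump η k 0 x * bump η k 1 x) * (bump η k 2 x * bump η k 3 x))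

noncomputable def B0 : ℝ :=
  mulC (6 * Bt) (mulC (mulC (mulC (6 * Bt) (6 * Bt)) (mulC (6 * Bt) (6 * Bt)))
    (mulC (mulC (6 * Bt) (6 * Bt)) (mulC (6 * Bt) (6 * Bt))))

theorem B0_nonneg : 0 ≤ B0 := by
  have := Bt_nonneg
  unfold B0 mulC; positivity

theorem amp_slow {η : ℝ} (hη : 0 ≤ η) (hη1 : η ≤ 1) (k : Fin 4 → ℤ) : Slow η B0 (amp η k) := by
  have h6 : 0 ≤ 6 * Bt := by have := Bt_nonneg; positivity
  have h2 := mulC_nonneg h6 h6
  have h4 := mulC_nonneg h2 h2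
  have hb : ∀ i, Slow η (mulC (6 * Bt) (6 * Bt)) (bump η k i) := fun i =>
    (slow_tauL hη hη1 _ _ (by rw [abs_of_nonneg (by positivity)]) i).mul hη hη1 h6 h6
      (slow_tauL hη hη1 _ _ (by rw [abs_neg, abs_of_nonneg (by positivity)]) i)
  exact (slow_tauR hη hη1 1 (-2) (by simp)).mul hη hη1 h6 (mulC_nonneg h4 h4)
    (((hb 0).mul hη hη1 h2 h2 (hb 1)).mul hη hη1 h4 h4 ((hb 2).mul hη hη1 h2 h2 (hb 3)))

theorem bump_ne {η : ℝ} {k : Fin 4 → ℤ} {i : Fin 4} {x : E4} (h : bump η k i x ≠ 0) :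
    |η * x i - k i| < 1 := by
  rw [bump, mul_ne_zero_iff] at h
  have h1 : 0 < 2 * η * x i + (2 - 2 * k i) := by
    by_contra hh; exact h.1 (tau_zero (not_lt.1 hh))
  have h2 : 0 < -(2 * η) * x i + (2 + 2 * k i) := by
    by_contra hh; exact h.2 (tau_zero (not_lt.1 hh))
  rw [abs_lt]; constructor <;> linarith

theorem bump_one {η : ℝ} {k : Fin 4 → ℤ} {i : Fin 4} {x : E4} (h : |η * x i - k i| ≤ 1 / 2) :
    bump η k i x = 1 := by
  obtain ⟨h1, h2⟩ := abs_le.1 h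
  rw [bump, tau_one (by linarith), tau_one (by linarith), mul_one]

theorem amp_ne {η : ℝ} {k : Fin 4 → ℤ} {x : E4} (h : amp η k x ≠ 0) (i : Fin 4) :
    |η * x i - k i| < 1 := by
  simp only [amp, mul_ne_zero_iff] at h
  obtain ⟨-, ⟨h0, h1⟩, h2, h3⟩ := h
  fin_cases i
  exacts [bump_ne h0, bump_ne h1, bump_ne h2, bump_ne h3]

theorem amp_zero {η : ℝ} (k : Fin 4 → ℤ) {x : E4} (h : R η x ≤ 2) : amp η k x = 0 := by
  rw [amp, tau_zero (by linarith), zero_mul]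

theorem amp_one {η : ℝ} {k : Fin 4 → ℤ} {x : E4} (h : 3 ≤ R η x)
    (hk : ∀ i, |η * x i - k i| ≤ 1 / 2) : amp η k x = 1 := by
  simp only [amp, bump_one (hk _), mul_one]
  exact tau_one (by linarith)

noncomputable def xi (C η : ℝ) (k : Fin 4 → ℤ) : E4 := Xi C (alph k) (η • kvec k)

noncomputable def wave (C η : ℝ) (k : Fin 4 → ℤ) (x : E4) : ℝ :=
  Real.exp (-S C η x) * (amp η k x * Real.cos (inner ℝ (xi C η k) x))

noncomputable def pp (η : ℝ) (x : E4) : ℝ := tau (-1 * R η x + 4)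

noncomputable def u0 (C η : ℝ) (x : E4) : ℝ := pp η x + ∑ᶠ k, wave C η k x

theorem u0_loc (C : ℝ) {η : ℝ} (hη : 0 ≤ η) {x z : E4} (h : η * ‖z - x‖ ≤ 1) :
    u0 C η z = pp η z + ∑ j, wave C η (idx η x j) z := by
  classical
  rw [u0, finsum_eq_sum_of_support_subset (s := Finset.univ.image (idx η x)),
    Finset.sum_image fun a _ b _ hab => idx_inj η x hab]
  intro k hk
  have h1 : amp η k z ≠ 0 := by
    intro h0
    apply hk
    simp [wave, h0]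
  have : ∀ i, |η * x i - k i| < 2 := by
    intro i
    have h2 := amp_ne h1 i
    have h3 : |(z - x) i| ≤ ‖z - x‖ := by simpa using PiLp.norm_apply_le (z - x) i
    have h4 : |η * (z i - x i)| ≤ 1 := by
      rw [abs_mul, abs_of_nonneg hη]
      exact (mul_le_mul_of_nonneg_left h3 hη).trans h
    rw [abs_lt] at h2 ⊢
    rw [abs_le] at h4
    constructor <;> linarith [h2.1, h2.2, h4.1, h4.2]
  obtain ⟨j, hj⟩ := mem_idx this
  simp only [Finset.coe_image, Finset.coe_univ, image_univ, mem_range]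
  exact ⟨j, hj⟩

theorem u0_ev (C : ℝ) {η : ℝ} (hη : 0 ≤ η) (hη1 : η ≤ 1) (x : E4) :
    u0 C η =ᶠ[𝓝 x] fun z => pp η z + ∑ j, wave C η (idx η x j) z := by
  filter_upwards [Metric.closedBall_mem_nhds x one_pos] with z hz
  refine u0_loc C hη ?_
  rw [Metric.mem_closedBall, dist_eq_norm] at hz
  nlinarith [norm_nonneg (z - x)]

theorem pp_slow {η : ℝ} (hη : 0 ≤ η) (hη1 : η ≤ 1) : Slow η (6 * Bt) (pp η) :=
  slow_tauR hη hη1 (-1) 4 (by simp)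

theorem wave_cd' (C : ℝ) {η : ℝ} (hη : 0 ≤ η) (hη1 : η ≤ 1) (k : Fin 4 → ℤ) :
    ContDiff ℝ 2 (wave C η k) := wave_cd (S_cd C η) (amp_slow hη hη1 k).cd _

theorem u0_cd (C : ℝ) {η : ℝ} (hη : 0 ≤ η) (hη1 : η ≤ 1) : ContDiff ℝ 2 (u0 C η) := by
  rw [contDiff_iff_contDiffAt]
  intro x
  refine ContDiffAt.congr_of_eventuallyEq ?_ (u0_ev C hη hη1 x)
  exact ((pp_slow hη hη1).cd.add (ContDiff.sum fun j _ => wave_cd' C hη hη1 _)).contDiffAt

theorem u0_inner (C : ℝ) {η : ℝ} {x : E4} (h : R η x ≤ 2) : u0 C η x = 1 := by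
  have : ∀ k, wave C η k x = 0 := fun k => by simp [wave, amp_zero k h]
  simp only [u0, this, finsum_zero, add_zero, pp]
  exact tau_one (by linarith)

end Pool.Agent.H198Z.Landis
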