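import Pool.Agent.H198Z.Landis.F

set_option autoImplicit false

open MeasureTheory Set Filter Topology

namespace Pool.Agent.H198Z.Landis

noncomputable def AA (C η : ℝ) (x : E4) : ℝ := Real.exp (-sig C η (max (R η x) 3))

noncomputable def V0 (C η : ℝ) (x : E4) : ℝ :=
  if R η x < 2 then 0 else ww C (η ^ 2 • x) ^ 2 - mu C (η ^ 2 • x) ^ 2

theorem norm_X (η : ℝ) (x : E4) : ‖η ^ 2 • x‖ = η ^ 2 * ‖x‖ := by
  rw [norm_smul, Real.norm_eq_abs, abs_of_nonneg (sq_nonneg η)]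

theorem R_cont (η : ℝ) : Continuous (R η) := (R_cd η).continuous

theorem AA_pos (C η : ℝ) (x : E4) : 0 < AA C η x := Real.exp_pos _

theorem AA_cont (C η : ℝ) : Continuous (AA C η) := by
  have := R_cont η
  have := G_cont
  unfold AA sig
  fun_prop

theorem V0_meas (C η : ℝ) : Measurable (V0 C η) := by
  have h1 := G_cont
  have h2 := g_cont
  have h3 : Continuous (ww C) := by unfold ww; fun_prop
  have h4 : Continuous (mu C) := by unfold mu; fun_prop
  exact Measurable.ite (measurableSet_lt (R_cont η).measurable measurable_const) measurable_const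
    (Continuous.measurable (by fun_prop))

theorem V0_abs {C : ℝ} (hC : 0 ≤ C) (η : ℝ) (x : E4) : |V0 C η x| ≤ 1 := by
  unfold V0
  split_ifs
  · simp
  · have h := ww_nonneg hC (η ^ 2 • x)
    unfold mu
    rcases le_total (ww C (η ^ 2 • x)) 1 with h1 | h1
    · rw [max_eq_right h1, abs_le]; constructor <;> nlinarith
    · rw [max_eq_left h1]; simp

theorem ww_sq (C η : ℝ) (x : E4) :
    ww C (η ^ 2 • x) ^ 2 = C ^ 2 * g (R η x - 5) ^ 2 * g (η ^ 2 * ‖x‖) ^ 2 := by
  rw [ww, norm_X, mul_pow, mul_pow, sq_abs, R]; ring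

theorem V0_zero {C : ℝ} (hC : 2 ≤ C) {η : ℝ} {x : E4} (h : R η x ≤ 4) : V0 C η x = 0 := by
  unfold V0
  split_ifs with h2
  · rfl
  · push Not at h2
    have h1 : 1 ≤ ww C (η ^ 2 • x) := by
      refine le_of_sq_le_sq ?_ (ww_nonneg (by linarith) _)
      rw [ww_sq]
      have a1 : 1 / 2 ≤ g (R η x - 5) ^ 2 := by
        rw [g_sq, le_div_iff₀ (by positivity)]; nlinarith
      have a2 : 3 / 4 ≤ g (η ^ 2 * ‖x‖) ^ 2 := by
        have := G_sq (η ^ 2 * ‖x‖)
        rw [g_sq, le_div_iff₀ (by positivity)]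
        unfold R at h2
        nlinarith
      have a3 : 4 ≤ C ^ 2 := by nlinarith
      calc (1 : ℝ) ^ 2 ≤ 4 * (1 / 2) * (3 / 4) := by norm_num
        _ ≤ _ := by gcongr
    rw [mu, max_eq_left h1, sub_self]

theorem sig_lip {C : ℝ} (hC : 0 ≤ C) (η a b : ℝ) :
    |sig C η a - sig C η b| ≤ C * |a - b| / η ^ 2 := by
  have e : sig C η a - sig C η b = C * (G (a - 5) - G (b - 5)) / η ^ 2 := by unfold sig; ring
  have := G_lip (a - 5) (b - 5)
  rw [sub_sub_sub_cancel_right] at this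
  rw [e, abs_div, abs_mul, abs_of_nonneg hC, abs_of_nonneg (sq_nonneg η)]
  gcongr

theorem R_lip (η : ℝ) (x y : E4) : |R η x - R η y| ≤ η ^ 2 * ‖x - y‖ := by
  refine (G_lip _ _).trans ?_
  rw [← mul_sub, abs_mul, abs_of_nonneg (sq_nonneg η)]
  exact mul_le_mul_of_nonneg_left (abs_norm_sub_norm_le x y) (sq_nonneg η)

theorem AA3 {C : ℝ} (hC : 0 < C) {η : ℝ} (hη : 0 < η) (x y : E4) (h : ‖y - x‖ ≤ 1 / C) :
    AA C η y ≤ 3 * AA C η x := by
  have h1 := sig_lip hC.le η (max (R η x) 3) (max (R η y) 3)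
  have h2 := (abs_max_sub_max_le_abs (R η x) (R η y) 3).trans (R_lip η x y)
  rw [norm_sub_rev] at h2
  have h3 : C * |max (R η x) 3 - max (R η y) 3| / η ^ 2 ≤ 1 := by
    rw [div_le_one (by positivity)]
    calc _ ≤ C * (η ^ 2 * (1 / C)) := by gcongr; exact h2.trans (by gcongr)
      _ = η ^ 2 := by field_simp
  have h4 := (le_abs_self _).trans (h1.trans h3)
  calc AA C η y ≤ Real.exp (1 + -sig C η (max (R η x) 3)) := Real.exp_le_exp.2 (by linarith)
    _ = Real.exp 1 * AA C η x := by rw [Real.exp_add]; rfl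
    _ ≤ 3 * AA C η x := by
      have := Real.exp_one_lt_d9
      have := AA_pos C η x
      gcongr; linarith

theorem sig_nonneg {C : ℝ} (hC : 0 ≤ C) (η : ℝ) {r : ℝ} (h : r ≤ 3) : 0 ≤ sig C η r := by
  have : G 2 ≤ G (r - 5) := G_mono (by nlinarith)
  exact div_nonneg (mul_nonneg hC (by linarith)) (sq_nonneg η)

theorem sig_nonpos {C : ℝ} (hC : 0 ≤ C) (η : ℝ) {r : ℝ} (h : 3 ≤ r) (h' : r ≤ 7) :
    sig C η r ≤ 0 := by
  have : G (r - 5) ≤ G 2 := G_mono (by nlinarith)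
  exact div_nonpos_of_nonpos_of_nonneg (mul_nonpos_of_nonneg_of_nonpos hC (by linarith))
    (sq_nonneg η)

theorem AA_one (C : ℝ) {η : ℝ} {x : E4} (h : R η x ≤ 3) : AA C η x = 1 := by
  have : G (3 - 5) = G 2 := by rw [← G_neg]; norm_num
  simp [AA, max_eq_right h, sig, this]

theorem AA_ge {C : ℝ} (hC : 0 ≤ C) {η : ℝ} {x : E4} (h : R η x ≤ 7) : 1 ≤ AA C η x :=
  Real.one_le_exp (neg_nonneg.2 (sig_nonpos hC η (le_max_right _ _) (max_le h (by norm_num))))

theorem AA_eq (C : ℝ) {η : ℝ} {x : E4} (h : 3 ≤ R η x) : AA C η x = Real.exp (-S C η x) := by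
  rw [AA, max_eq_left h, S]

theorem F_le {C : ℝ} (hC : 0 ≤ C) (η : ℝ) (x : E4) : Real.exp (-S C η x) ≤ AA C η x := by
  rcases le_total (R η x) 3 with h | h
  · rw [AA_one C h]
    exact Real.exp_le_one_iff.2 (neg_nonpos.2 (sig_nonneg hC η h))
  · rw [AA_eq C h]

theorem AA_decay {C : ℝ} (hC : 0 ≤ C) {η : ℝ} (hη : 0 < η) (x : E4) :
    AA C η x ≤ Real.exp (8 * C / η ^ 2) * Real.exp (-(C * ‖x‖)) := by
  rw [← Real.exp_add]
  refine Real.exp_le_exp.2 ?_
  have h1 : η ^ 2 * ‖x‖ ≤ R η x := (le_abs_self _).trans (abs_le_G _)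
  have h2 : max (R η x) 3 - 5 ≤ G (max (R η x) 3 - 5) := (le_abs_self _).trans (abs_le_G _)
  have h3 : G 2 ≤ 3 := Real.sqrt_le_iff.2 ⟨by norm_num, by norm_num⟩
  have h4 := le_max_left (R η x) 3
  have h5 : C * (η ^ 2 * ‖x‖ - 8) / η ^ 2 ≤ sig C η (max (R η x) 3) := by
    have : η ^ 2 * ‖x‖ - 8 ≤ G (max (R η x) 3 - 5) - G 2 := by linarith
    unfold sig
    exact div_le_div_of_nonneg_right (mul_le_mul_of_nonneg_left this hC) (sq_nonneg η)
  have h6 : C * (η ^ 2 * ‖x‖ - 8) / η ^ 2 = C * ‖x‖ - 8 * C / η ^ 2 := by field_simp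
  linarith

theorem pp_nonneg (η : ℝ) (x : E4) : 0 ≤ pp η x := tau_nonneg _
theorem pp_zero {η : ℝ} {x : E4} (h : 4 ≤ R η x) : pp η x = 0 := tau_zero (by linarith)
theorem pp_one {η : ℝ} {x : E4} (h : R η x ≤ 3) : pp η x = 1 := tau_one (by linarith)

theorem pp_le {C : ℝ} (hC : 0 ≤ C) (η : ℝ) (x : E4) : pp η x ≤ AA C η x := by
  rcases le_total (R η x) 4 with h | h
  · exact (tau_le _).trans (AA_ge hC (by linarith))
  · rw [pp_zero h]; exact (AA_pos _ _ _).le

theorem wave_abs {C : ℝ} (hC : 0 ≤ C) {η : ℝ} (hη : 0 ≤ η) (hη1 : η ≤ 1) (k : Fin 4 → ℤ) (x : E4) :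
    |wave C η k x| ≤ AA C η x := by
  rw [wave, abs_mul, abs_mul, abs_of_pos (Real.exp_pos _)]
  have := mul_le_one₀ ((amp_slow hη hη1 k).b0 x) (abs_nonneg _)
    (Real.abs_cos_le_one (inner ℝ (xi C η k) x))
  calc _ ≤ AA C η x * 1 := mul_le_mul (F_le hC η x) this (by positivity) (AA_pos _ _ _).le
    _ = _ := mul_one _

theorem sum256 {f : (Fin 4 → Fin 4) → ℝ} {c : ℝ} (h : ∀ j, |f j| ≤ c) : |∑ j, f j| ≤ 256 * c := by
  refine (Finset.abs_sum_le_sum_abs _ _).trans ((Finset.sum_le_sum fun j _ => h j).trans ?_)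
  simp

theorem u0_abs {C : ℝ} (hC : 0 ≤ C) {η : ℝ} (hη : 0 ≤ η) (hη1 : η ≤ 1) (x : E4) :
    |u0 C η x| ≤ 257 * AA C η x := by
  rw [u0_loc C hη (x := x) (by simp)]
  have h1 := sum256 fun j => wave_abs hC hη hη1 (idx η x j) x
  have h2 : |pp η x| ≤ AA C η x := by rw [abs_of_nonneg (pp_nonneg η x)]; exact pp_le hC η x
  linarith [abs_add_le (pp η x) (∑ j, wave C η (idx η x j) x)]

theorem Xk_norm {η : ℝ} (hη : 0 ≤ η) (hη1 : η ≤ 1 / 8) {x : E4} (hx : 3 / 2 ≤ ‖η ^ 2 • x‖)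
    (j : Fin 4 → Fin 4) : 1 ≤ ‖η • kvec (idx η x j)‖ := by
  have h1 := idx_close hη x j
  have h2 := norm_sub_norm_le (η ^ 2 • x) (η • kvec (idx η x j))
  rw [norm_sub_rev] at h2
  linarith

theorem xi_close {C : ℝ} (hC : 1 ≤ C) {η : ℝ} (hη : 0 ≤ η) (hη1 : η ≤ 1 / 8) {x : E4}
    (hx : 3 / 2 ≤ ‖η ^ 2 • x‖) (j : Fin 4 → Fin 4) :
    ‖xi C η (idx η x j) - Xi C (alph (idx η x j)) (η ^ 2 • x)‖ ≤ 16 * C * η := by
  refine (Xi_lip hC (alph_abs _) (Xk_norm hη hη1 hx j) (by linarith)).trans ?_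
  have := idx_close hη x j
  nlinarith

theorem xi_norm_le {C : ℝ} (hC : 1 ≤ C) {η : ℝ} (hη : 0 ≤ η) (hη1 : η ≤ 1 / 8) {x : E4}
    (hx : 3 / 2 ≤ ‖η ^ 2 • x‖) (j : Fin 4 → Fin 4) : ‖xi C η (idx η x j)‖ ≤ C := by
  rw [xi, Xi_norm C (alph_abs _) (Xk_norm hη hη1 hx j)]
  exact mu_le hC _

noncomputable def K1 (C : ℝ) : ℝ := 3 * (16 * C ^ 2) + 4 * (2 * C + 4 * (C * B0) + B0)

theorem wave_err {C : ℝ} (hC : 2 ≤ C) {η : ℝ} (hη : 0 < η) (hη1 : η ≤ 1 / 8) (x : E4)
    (j : Fin 4 → Fin 4) :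
    |Lap (wave C η (idx η x j)) x - V0 C η x * wave C η (idx η x j) x| ≤ K1 C * η * AA C η x := by
  have hB := B0_nonneg
  have hK : 0 ≤ K1 C := by unfold K1; positivity
  have hA := AA_pos C η x
  by_cases h : R η x < 2
  · have h1 : wave C η (idx η x j) =ᶠ[𝓝 x] fun _ => 0 := by
      filter_upwards [(R_cont η).continuousAt.eventually (gt_mem_nhds h)] with z hz
      simp [wave, amp_zero _ hz.le]
    rw [Lap_congr h1, Lap_const, h1.eq_of_nhds]
    simp only [mul_zero, sub_self, abs_zero]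
    positivity
  · have hV : V0 C η x = ww C (η ^ 2 • x) ^ 2 - mu C (η ^ 2 • x) ^ 2 := by simp [V0, h]
    push Not at h
    have hx : 3 / 2 ≤ ‖η ^ 2 • x‖ := by
      rw [norm_X]
      have h1 := G_sq (η ^ 2 * ‖x‖)
      have h2 : 0 ≤ η ^ 2 * ‖x‖ := by positivity
      unfold R at h
      nlinarith
    have hC1 : 1 ≤ C := by linarith
    have hC0 : 0 ≤ C := by linarith
    have key := wave_bound (S_cd C η) (K := 16 * C ^ 2) (V := V0 C η x) hη.le hB hC0
      (amp_slow hη.le (by linarith) (idx η x j)) (xi C η (idx η x j)) x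
      (fun i => by
        rw [D_S C hη.ne', abs_mul, abs_mul, abs_of_nonneg hC0]
        calc _ ≤ C * 1 * 1 := by gcongr; exacts [g_abs _, nn_abs _ _ _]
          _ = C := by ring)
      (fun i => DD_S_le hC0 hη (by linarith) i x)
      (fun i => by
        have : |xi C η (idx η x j) i| ≤ ‖xi C η (idx η x j)‖ := by
          simpa using PiLp.norm_apply_le (xi C η (idx η x j)) i
        exact this.trans (xi_norm_le hC1 hη.le hη1 hx j))
      (by
        have e1 : ∑ i, D i (S C η) x ^ 2 = ww C (η ^ 2 • x) ^ 2 := by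
          simp only [D_S C hη.ne', mul_pow]
          rw [← Finset.mul_sum, nn_sum, ww_sq]
        rw [e1, hV, xi, Xi_norm C (alph_abs _) (Xk_norm hη.le hη1 hx j)]
        have h1 := mu_lip hC0 (η • kvec (idx η x j)) (η ^ 2 • x)
        have h2 := idx_close hη.le x j
        have h3 := mu_le hC1 (η • kvec (idx η x j))
        have h4 := mu_le hC1 (η ^ 2 • x)
        have h5 := mu_ge C (η • kvec (idx η x j))
        have h6 := mu_ge C (η ^ 2 • x)
        have e2 : ww C (η ^ 2 • x) ^ 2 - mu C (η • kvec (idx η x j)) ^ 2 -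
            (ww C (η ^ 2 • x) ^ 2 - mu C (η ^ 2 • x) ^ 2) =
            -((mu C (η • kvec (idx η x j)) - mu C (η ^ 2 • x)) *
              (mu C (η • kvec (idx η x j)) + mu C (η ^ 2 • x))) := by ring
        rw [e2, abs_neg, abs_mul, abs_of_nonneg (a := _ + _) (by linarith)]
        calc _ ≤ (2 * C * (4 * η)) * (C + C) := by
              gcongr
              exact h1.trans (by gcongr)
          _ = _ := by ring)
      (by
        have e1 : ∑ i, D i (S C η) x * xi C η (idx η x j) i = C * g (R η x - 5) / R η x *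
            inner ℝ (xi C η (idx η x j) - Xi C (alph (idx η x j)) (η ^ 2 • x)) (η ^ 2 • x) := by
          rw [inner_sub_left, Xi_inner, sub_zero, inner_eq, Finset.mul_sum]
          refine Finset.sum_congr rfl fun i _ => ?_
          rw [D_S C hη.ne', nn]
          simp only [PiLp.smul_apply, smul_eq_mul]
          ring
        have h1 := abs_real_inner_le_norm
          (xi C η (idx η x j) - Xi C (alph (idx η x j)) (η ^ 2 • x)) (η ^ 2 • x)
        have h2 := xi_close hC1 hη.le hη1 hx j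
        have h3 : ‖η ^ 2 • x‖ ≤ R η x := by
          rw [norm_X]; exact (le_abs_self _).trans (abs_le_G _)
        have h4 := R_pos η x
        rw [e1, abs_mul, abs_div, abs_mul, abs_of_nonneg hC0, abs_of_pos h4]
        calc _ ≤ C * 1 / R η x * (16 * C * η * R η x) := by
              gcongr
              · exact g_abs _
              · exact h1.trans (by gcongr)
          _ = _ := by field_simp)
    refine key.trans ?_
    have := F_le hC0 η x
    unfold K1
    gcongr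

theorem u0_err {C : ℝ} (hC : 2 ≤ C) {η : ℝ} (hη : 0 < η) (hη1 : η ≤ 1 / 8) (x : E4) :
    |Lap (u0 C η) x - V0 C η x * u0 C η x| ≤ (24 * Bt + 256 * K1 C) * η * AA C η x := by
  have hη2 : η ≤ 1 := by linarith
  have hB := Bt_nonneg
  have hA := AA_pos C η x
  have hw : ∀ j, ContDiff ℝ 2 (wave C η (idx η x j)) := fun j => wave_cd' C hη.le hη2 _
  have hp := pp_slow hη.le hη2
  rw [Lap_congr (u0_ev C hη.le hη2 x), (u0_ev C hη.le hη2 x).eq_of_nhds,
    Lap_add hp.cd (ContDiff.sum fun j _ => hw j), Lap_sum _ fun j _ => hw j]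
  have h1 := sum256 fun j => wave_err hC hη hη1 x j
  have h2 : |Lap (pp η) x - V0 C η x * pp η x| ≤ 24 * Bt * η * AA C η x := by
    rcases le_or_gt (R η x) 4 with h | h
    · rw [V0_zero hC h, zero_mul, sub_zero]
      have h3 : |Lap (pp η) x| ≤ 24 * Bt * η := by
        refine (Finset.abs_sum_le_sum_abs _ _).trans
          ((Finset.sum_le_sum fun i _ => hp.b2 i x).trans (le_of_eq ?_))
        simp; ring
      have h4 := AA_ge (C := C) (by linarith) (x := x) (η := η) (by linarith)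
      calc _ ≤ 24 * Bt * η * 1 := by linarith
        _ ≤ _ := by gcongr
    · have h3 : pp η =ᶠ[𝓝 x] fun _ => 0 := by
        filter_upwards [(R_cont η).continuousAt.eventually (lt_mem_nhds h)] with z hz
        exact pp_zero hz.le
      rw [Lap_congr h3, Lap_const, h3.eq_of_nhds]
      simp only [mul_zero, sub_self, abs_zero]
      positivity
  rw [Finset.sum_sub_distrib, ← Finset.mul_sum] at h1
  rw [abs_le] at h1 h2 ⊢
  constructor <;> linarith [h1.1, h1.2, h2.1, h2.2]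

end Pool.Agent.H198Z.Landis
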