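import Pool.Agent.H198Z.Landis.G

set_option autoImplicit false

open MeasureTheory Set Filter Topology

namespace Pool.Agent.H198Z.Landis

noncomputable def K2 (C : ℝ) : ℝ := 24 * Bt + 256 * (2 * C + 4 * B0)

/-- freezing the coefficients along a short tangential segment -/
theorem freeze {C : ℝ} (hC : 2 ≤ C) {η : ℝ} (hη : 0 < η) (hη1 : η ≤ 1 / 8) (hηC : C * η ≤ 1)
    {x y z : E4} (hz : η * ‖z - x‖ ≤ 1) (hzy : ‖z - y‖ ≤ 1) (hn : |‖z‖ ^ 2 - ‖y‖ ^ 2| ≤ 2) :
    |u0 C η z - (pp η y + ∑ j, Real.exp (-S C η y) * amp η (idx η x j) y *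
      Real.cos (inner ℝ (xi C η (idx η x j)) z))| ≤ K2 C * η * AA C η y := by
  have hη2 : η ≤ 1 := by linarith
  have hC0 : 0 ≤ C := by linarith
  have hB := Bt_nonneg
  have hB0 := B0_nonneg
  have hA := AA_pos C η y
  have h1 : |pp η z - pp η y| ≤ 24 * Bt * η * AA C η y := by
    rcases le_total (R η y) 7 with h | h
    · have h2 := lip_of_D (diff2 (pp_slow hη.le hη2).cd) (pp_slow hη.le hη2).b1 y z
      have h3 := AA_ge hC0 h
      calc _ ≤ 4 * (6 * Bt * η) * 1 := h2.trans (by gcongr)
        _ = 24 * Bt * η * 1 := by ring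
        _ ≤ _ := by gcongr
    · have h2 := R_lip η y z
      rw [norm_sub_rev] at h2
      have h3 : η ^ 2 * ‖z - y‖ ≤ 1 := mul_le_one₀ (by nlinarith) (norm_nonneg _) hzy
      have h4 := le_abs_self (R η y - R η z)
      rw [pp_zero (by linarith), pp_zero (by linarith)]
      simp only [sub_self, abs_zero]; positivity
  have h2 : |R η z - R η y| ≤ η ^ 4 := by
    have e : (R η z - R η y) * (R η z + R η y) = η ^ 4 * (‖z‖ ^ 2 - ‖y‖ ^ 2) := by
      have := R_sq η z
      have := R_sq η y
      nlinarith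
    have a1 := R_ge η z
    have a2 := R_ge η y
    have a3 : |R η z - R η y| * (R η z + R η y) ≤ η ^ 4 * 2 := by
      rw [← abs_of_nonneg (a := R η z + R η y) (by linarith), ← abs_mul, e, abs_mul,
        abs_of_nonneg (a := η ^ 4) (by positivity)]
      gcongr
    nlinarith [abs_nonneg (R η z - R η y)]
  have h3 : |S C η z - S C η y| ≤ C * η := by
    refine (sig_lip hC0 η _ _).trans ?_
    rw [div_le_iff₀ (by positivity)]
    calc C * |R η z - R η y| ≤ C * η ^ 4 := by gcongr
      _ = C * η * η ^ 2 * η := by ring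
      _ ≤ C * η * η ^ 2 * 1 := by gcongr
      _ = _ := mul_one _
  have h4 : |Real.exp (-S C η z) - Real.exp (-S C η y)| ≤ 2 * C * η * AA C η y := by
    have e : Real.exp (-S C η z) - Real.exp (-S C η y) =
        (Real.exp (-(S C η z - S C η y)) - 1) * Real.exp (-S C η y) := by
      rw [sub_mul, ← Real.exp_add, one_mul]
      congr 2; ring
    have a1 := Real.abs_exp_sub_one_le (x := -(S C η z - S C η y)) (by rw [abs_neg]; linarith)
    rw [abs_neg] at a1
    rw [e, abs_mul, abs_of_pos (Real.exp_pos _)]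
    exact mul_le_mul (by linarith) (F_le hC0 η y) (Real.exp_pos _).le (by positivity)
  have h5 : ∀ j, |wave C η (idx η x j) z - Real.exp (-S C η y) * amp η (idx η x j) y *
      Real.cos (inner ℝ (xi C η (idx η x j)) z)| ≤ (2 * C + 4 * B0) * η * AA C η y := by
    intro j
    have hs := amp_slow hη.le hη2 (idx η x j)
    have a1 := lip_of_D (diff2 hs.cd) hs.b1 y z
    have a2 : |amp η (idx η x j) z - amp η (idx η x j) y| ≤ 4 * (B0 * η) * 1 :=
      a1.trans (by gcongr)
    have e : wave C η (idx η x j) z - Real.exp (-S C η y) * amp η (idx η x j) y *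
        Real.cos (inner ℝ (xi C η (idx η x j)) z) =
        ((Real.exp (-S C η z) - Real.exp (-S C η y)) * amp η (idx η x j) z +
          Real.exp (-S C η y) * (amp η (idx η x j) z - amp η (idx η x j) y)) *
          Real.cos (inner ℝ (xi C η (idx η x j)) z) := by
      unfold wave; ring
    have a3 : |(Real.exp (-S C η z) - Real.exp (-S C η y)) * amp η (idx η x j) z| ≤
        2 * C * η * AA C η y * 1 := by
      rw [abs_mul]; exact mul_le_mul h4 (hs.b0 z) (abs_nonneg _) (by positivity)
    have a4 : |Real.exp (-S C η y) * (amp η (idx η x j) z - amp η (idx η x j) y)| ≤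
        AA C η y * (4 * (B0 * η) * 1) := by
      rw [abs_mul, abs_of_pos (Real.exp_pos _)]
      exact mul_le_mul (F_le hC0 η y) a2 (abs_nonneg _) hA.le
    rw [e, abs_mul]
    calc _ ≤ (2 * C * η * AA C η y * 1 + AA C η y * (4 * (B0 * η) * 1)) * 1 :=
          mul_le_mul ((abs_add_le _ _).trans (add_le_add a3 a4)) (Real.abs_cos_le_one _)
            (abs_nonneg _) (by positivity)
      _ = _ := by ring
  have h6 := sum256 h5
  rw [Finset.sum_sub_distrib] at h6
  rw [u0_loc C hη.le hz, K2]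
  rw [abs_le] at h1 h6 ⊢
  constructor <;> linarith [h1.1, h1.2, h6.1, h6.2]

theorem thin {C : ℝ} (hC : 2 ≤ C) {ε : ENNReal} (hε : 0 < ε) :
    ∃ δ > 0, ∃ η0 > 0, ∀ η, 0 < η → η ≤ η0 → ∀ x : E4, ∃ e : E4, ‖e‖ ≤ 1 ∧ ∀ y, ‖y - x‖ ≤ 2 * (1 / C) →
      volume {t ∈ Icc (0 : ℝ) 1 | y + (1 / C * t) • e ∈ {z | |u0 C η z| < δ * AA C η z}} ≤ ε := by
  have hC0 : 0 < C := by linarith
  have hC1 : 1 ≤ C := by linarith
  have hK : 0 ≤ K2 C := by have := Bt_nonneg; have := B0_nonneg; unfold K2; positivity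
  obtain ⟨δ1, hδ1, hT⟩ := trig_sublevel (Fin 4 → Fin 4) (κ := 1 / C * (1 / 514)) (by positivity) hε
  refine ⟨min (δ1 / 6) 1, by positivity, min (1 / (20000 * C)) (δ1 / (2 * (K2 C + 1))),
    by positivity, fun η hη hη0 x => ?_⟩
  have hη1 : C * η ≤ 1 / 20000 := by
    have := hη0.trans (min_le_left _ _)
    rw [le_div_iff₀ (by positivity)] at this
    linarith
  have hη2 : η ≤ 1 / 20000 := by nlinarith
  have hη3 : K2 C * η ≤ δ1 / 2 := by
    have := hη0.trans (min_le_right _ _)
    rw [le_div_iff₀ (by positivity)] at this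
    nlinarith
  have hs : 1 / C ≤ 1 / 2 := by gcongr
  have hs0 : 0 < 1 / C := by positivity
  set s := 1 / C with hsdef
  have hseg : ∀ (e y : E4) (t : ℝ), ‖e‖ ≤ 1 → t ∈ Icc (0 : ℝ) 1 → ‖(y + (s * t) • e) - y‖ ≤ s := by
    intro e y t he ht
    rw [add_sub_cancel_left, norm_smul, Real.norm_eq_abs, abs_of_nonneg (mul_nonneg hs0.le ht.1)]
    calc _ ≤ s * 1 * 1 := by gcongr; exact ht.2
      _ = s := by ring
  have hsegx : ∀ (e y : E4) (t : ℝ), ‖e‖ ≤ 1 → t ∈ Icc (0 : ℝ) 1 → ‖y - x‖ ≤ 2 * s →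
      ‖(y + (s * t) • e) - x‖ ≤ 3 / 2 := by
    intro e y t he ht hy
    have := norm_sub_le_norm_sub_add_norm_sub (y + (s * t) • e) y x
    have := hseg e y t he ht
    linarith
  rcases lt_or_ge ‖η ^ 2 • x‖ (3 / 2) with hx | hx
  · refine ⟨0, by simp, fun y hy => ?_⟩
    refine le_of_eq_of_le (measure_mono_null (fun t ht => ?_) measure_empty) zero_le
    have h1 := hsegx 0 y t (by simp) ht.1 hy
    set z := y + (s * t) • (0 : E4)
    have h2 : R η z ≤ 2 := by
      have a1 := R_sq η z
      have a2 := norm_sub_norm_le z x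
      rw [norm_X] at hx
      have a3 : η ^ 2 * ‖z‖ ≤ 1.7 := by nlinarith
      have a4 : 0 ≤ η ^ 2 * ‖z‖ := by positivity
      have a5 := R_pos η z
      nlinarith
    have h3 : |u0 C η z| < min (δ1 / 6) 1 * AA C η z := ht.2
    rw [u0_inner C h2, AA_one C (h2.trans (by norm_num)), abs_one, mul_one] at h3
    exact absurd (h3.trans_le (min_le_right _ _)) (lt_irrefl _)
  · have hx1 : 1 ≤ ‖η ^ 2 • x‖ := by linarith
    have he : ‖Dir 1 0 (unit (η ^ 2 • x))‖ = 1 := by rw [Dir_norm (by norm_num), unit_norm hx1]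
    have hex : inner ℝ (Dir 1 0 (unit (η ^ 2 • x))) x = 0 := by
      rw [unit, smul_smul, Dir_inner]
    have hfreq : ∀ j, |inner ℝ (xi C η (idx η x j)) (Dir 1 0 (unit (η ^ 2 • x))) -
        mu C (η ^ 2 • x) * alph (idx η x j)| ≤ 1 / 1250 := by
      intro j
      rw [← Xi_inner' C _ hx1, ← inner_sub_left]
      refine (abs_real_inner_le_norm _ _).trans ?_
      rw [he, mul_one]
      have := xi_close hC1 hη.le (by linarith) hx j
      linarith
    set e := Dir 1 0 (unit (η ^ 2 • x))
    refine ⟨e, he.le, fun y hy => ?_⟩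
    have hA := AA_pos C η y
    let γ : (Fin 4 → Fin 4) → ℝ := fun j => Real.exp (-S C η y) * amp η (idx η x j) y / AA C η y
    have hγ : ∀ j, |γ j| ≤ 1 := by
      intro j
      simp only [γ]
      rw [abs_div, abs_mul, abs_of_pos hA, abs_of_pos (Real.exp_pos _), div_le_one hA]
      calc _ ≤ AA C η y * 1 :=
            mul_le_mul (F_le hC0.le η y) ((amp_slow hη.le (by linarith) _).b0 y) (abs_nonneg _) hA.le
        _ = _ := mul_one _
    have hmu := mu_ge C (η ^ 2 • x)
    refine le_trans (measure_mono fun t ht => ?_) (hT (pp η y / AA C η y)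
      (fun j => γ j * Real.cos (inner ℝ (xi C η (idx η x j)) y))
      (fun j => -(γ j * Real.sin (inner ℝ (xi C η (idx η x j)) y)))
      (fun j => s * inner ℝ (xi C η (idx η x j)) e) ?_ ?_ ?_ ?_ ?_ ?_ ?_)
    · refine ⟨ht.1, ?_⟩
      have h1 := hsegx e y t he.le ht.1 hy
      have h2 := hseg e y t he.le ht.1
      have hst : 0 ≤ s * t := mul_nonneg hs0.le ht.1.1
      have hst' : s * t ≤ 1 / 2 := by nlinarith [ht.1.2]
      have h3 : |‖y + (s * t) • e‖ ^ 2 - ‖y‖ ^ 2| ≤ 2 := by
        rw [norm_add_sq_real, norm_smul, he, inner_smul_right, Real.norm_eq_abs, abs_of_nonneg hst]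
        have a1 : inner ℝ y e = inner ℝ (y - x) e := by
          rw [inner_sub_left, real_inner_comm e x, hex, sub_zero]
        have a2 := abs_real_inner_le_norm (y - x) e
        rw [he, ← a1] at a2
        have a3 : |inner ℝ y e| ≤ (1 : ℝ) := by linarith
        rw [abs_le] at a3 ⊢
        constructor <;> nlinarith [a3.1, a3.2]
      have h4 := freeze hC hη (by linarith) (by linarith) (x := x) (y := y) (z := y + (s * t) • e)
        (by nlinarith [norm_nonneg (y + (s * t) • e - x)]) (by linarith) h3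
      have h5 : |u0 C η (y + (s * t) • e)| < min (δ1 / 6) 1 * AA C η (y + (s * t) • e) := ht.2
      have h6 := AA3 hC0 hη y (y + (s * t) • e) h2
      have h7 : |u0 C η (y + (s * t) • e)| ≤ δ1 / 2 * AA C η y := by
        have := AA_pos C η (y + (s * t) • e)
        calc _ ≤ min (δ1 / 6) 1 * AA C η (y + (s * t) • e) := h5.le
          _ ≤ δ1 / 6 * (3 * AA C η y) := by gcongr; exact min_le_left _ _
          _ = _ := by ring
      have e1 : trig (pp η y / AA C η y)
          (fun j => γ j * Real.cos (inner ℝ (xi C η (idx η x j)) y))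
          (fun j => -(γ j * Real.sin (inner ℝ (xi C η (idx η x j)) y)))
          (fun j => s * inner ℝ (xi C η (idx η x j)) e) t =
          (pp η y + ∑ j, Real.exp (-S C η y) * amp η (idx η x j) y *
            Real.cos (inner ℝ (xi C η (idx η x j)) (y + (s * t) • e))) / AA C η y := by
        rw [trig, add_div, Finset.sum_div]
        congr 1
        refine Finset.sum_congr rfl fun j _ => ?_
        rw [inner_add_right, inner_smul_right, Real.cos_add, mul_right_comm s t]
        simp only [γ]; ring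
      rw [e1, abs_div, abs_of_pos hA, div_le_iff₀ hA]
      have h8 : K2 C * η * AA C η y ≤ δ1 / 2 * AA C η y := by gcongr
      rw [abs_le] at h4 h7 ⊢
      constructor <;> linarith [h4.1, h4.2, h7.1, h7.2]
    · rw [abs_div, abs_of_pos hA, abs_of_nonneg (pp_nonneg η y), div_le_one hA]
      exact pp_le hC0.le η y
    · intro j
      rw [abs_mul]
      exact mul_le_one₀ (hγ j) (abs_nonneg _) (Real.abs_cos_le_one _)
    · intro j
      rw [abs_neg, abs_mul]
      exact mul_le_one₀ (hγ j) (abs_nonneg _) (Real.abs_sin_le_one _)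
    · have e1 : ∀ j, (γ j * Real.cos (inner ℝ (xi C η (idx η x j)) y)) ^ 2 +
          (-(γ j * Real.sin (inner ℝ (xi C η (idx η x j)) y))) ^ 2 = γ j ^ 2 := by
        intro j
        linear_combination (γ j ^ 2) * Real.cos_sq_add_sin_sq (inner ℝ (xi C η (idx η x j)) y)
      simp only [e1]
      rcases le_total (R η y) 3 with h | h
      · rw [pp_one h, AA_one C h]
        have : 0 ≤ ∑ j, γ j ^ 2 := Finset.sum_nonneg fun j _ => sq_nonneg _
        linarith
      · have h1 : ∀ i, |η * y i - ((round (η * y i) : ℤ) : ℝ)| ≤ 1 / 2 := fun i => abs_sub_round _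
        obtain ⟨j, hj⟩ := mem_idx (η := η) (x := x) (k := fun i => round (η * y i)) (fun i => by
          have a1 := h1 i
          have a2 : |(y - x) i| ≤ ‖y - x‖ := by simpa using PiLp.norm_apply_le (y - x) i
          have a3 : |η * (y i - x i)| ≤ 1 := by
            rw [abs_mul, abs_of_pos hη]
            exact mul_le_one₀ (by linarith) (abs_nonneg _) (a2.trans (by linarith))
          rw [abs_le] at a1 a3
          rw [abs_lt]
          constructor <;> linarith [a1.1, a1.2, a3.1, a3.2])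
        have h2 : γ j = 1 := by
          simp only [γ]
          rw [hj, amp_one h h1, mul_one, ← AA_eq C h, div_self hA.ne']
        have h3 : γ j ^ 2 ≤ ∑ j, γ j ^ 2 :=
          Finset.single_le_sum (f := fun j => γ j ^ 2) (fun _ _ => sq_nonneg _) (Finset.mem_univ j)
        rw [h2] at h3
        nlinarith [sq_nonneg (pp η y / AA C η y)]
    · intro j
      refine mul_le_mul_of_nonneg_left ?_ hs0.le
      have h1 := (abs_le.1 (hfreq j)).1
      have h2 := alph_ge (idx η x j)
      nlinarith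
    · intro j
      have h1 := (le_abs_self _).trans (abs_real_inner_le_norm (xi C η (idx η x j)) e)
      rw [he, mul_one] at h1
      have h2 := xi_norm_le hC1 hη.le (by linarith) hx j
      calc _ ≤ s * C := by gcongr; exact h1.trans h2
        _ = 1 := by rw [hsdef]; field_simp
    · intro j j' hjj
      rw [← mul_sub, abs_mul, abs_of_pos hs0]
      refine mul_le_mul_of_nonneg_left ?_ hs0.le
      have h1 := hfreq j
      have h2 := hfreq j'
      have h3 := alph_sep η x hjj
      have h4 : 1 / 257 ≤ |mu C (η ^ 2 • x) * alph (idx η x j) -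
          mu C (η ^ 2 • x) * alph (idx η x j')| := by
        rw [← mul_sub, abs_mul, abs_of_nonneg (a := mu C _) (by linarith)]
        nlinarith
      rcases le_abs.1 h4 with h5 | h5
      · refine le_trans ?_ (le_abs_self _)
        rw [abs_le] at h1 h2
        linarith [h1.1, h2.2]
      · refine le_trans ?_ (neg_le_abs _)
        rw [abs_le] at h1 h2
        linarith [h1.2, h2.1]

theorem main (C : ℝ) : ∃ V u : E4 → ℝ, Measurable V ∧ Measurable u ∧ (∀ x, |V x| ≤ 2) ∧
    (∀ x, |u x| ≤ Real.exp (-(C * ‖x‖))) ∧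
    (∀ φ : E4 → ℝ, ContDiff ℝ 2 φ → HasCompactSupport φ →
      ∫ x, (-(u x * Lap φ x) + V x * u x * φ x) = 0) ∧ ¬ ∀ᵐ x, u x = 0 := by
  obtain ⟨C', hC, hCC⟩ : ∃ C' : ℝ, 2 ≤ C' ∧ C ≤ C' := ⟨max C 2, le_max_right _ _, le_max_left _ _⟩
  have hC0 : 0 < C' := by linarith
  obtain ⟨ε, hε, hd⟩ := exists_eps
  obtain ⟨δ, hδ, η0, hη0, hth⟩ := thin hC hε
  have hK : 0 ≤ 24 * Bt + 256 * K1 C' := by
    have := Bt_nonneg; have := B0_nonneg; unfold K1; positivity
  set K := 24 * Bt + 256 * K1 C' with hKdef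
  obtain ⟨η, hη, h1, h2, h3, h4⟩ :
      ∃ η : ℝ, 0 < η ∧ η ≤ η0 ∧ η ≤ 1 / 8 ∧ 4 * (K * η) ≤ δ ∧ K * η ≤ 1 / 2 := by
    refine ⟨min (min η0 (1 / 8)) (min δ 1 / (4 * (K + 1))), by positivity,
      (min_le_left _ _).trans (min_le_left _ _), (min_le_left _ _).trans (min_le_right _ _), ?_⟩
    have a1 : min (min η0 (1 / 8)) (min δ 1 / (4 * (K + 1))) ≤ min δ 1 / (4 * (K + 1)) :=
      min_le_right _ _
    have a2 : 0 < min (min η0 (1 / 8)) (min δ 1 / (4 * (K + 1))) := by positivity
    rw [le_div_iff₀ (by positivity)] at a1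
    have a3 := min_le_left δ 1
    have a4 := min_le_right δ 1
    constructor <;> nlinarith
  have hη1 : η ≤ 1 := by linarith
  have hcd := u0_cd C' hη.le hη1
  have hN : MeasurableSet {z | |u0 C' η z| < δ * AA C' η z} :=
    measurableSet_lt hcd.continuous.abs.measurable (continuous_const.mul (AA_cont C' η)).measurable
  have hdec := AA_decay hC0.le hη
  set M := Real.exp (8 * C' / η ^ 2) with hM
  have hM0 : 0 < M := Real.exp_pos _
  obtain ⟨u, V, um, Vm, hV, hu, hw⟩ := correction (s := 1 / C') (by positivity)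
    (by rw [div_le_one hC0]; linarith) (AA_pos C' η) (Amax := M)
    (fun x => (hdec x).trans (by
      have : Real.exp (-(C' * ‖x‖)) ≤ 1 := Real.exp_le_one_iff.2 (neg_nonpos.2 (by positivity))
      nlinarith))
    (AA_cont C' η).measurable (AA3 hC0 hη) hcd (V0_meas C' η) (V0_abs hC0.le η)
    (K := K * η) (by positivity) hδ h3 (u0_err hC hη h2)
    (fun x => hd _ (by positivity) _ hN x (hth η hη h1 x))
  refine ⟨V, fun x => (258 * M)⁻¹ * u x, Vm, measurable_const.mul um, hV, fun x => ?_,
    fun φ hφ hc => ?_, fun hae => ?_⟩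
  · have a1 := u0_abs hC0.le hη.le hη1 x
    have a2 := hu x
    have a3 := AA_pos C' η x
    have a4 : |u x| ≤ 258 * AA C' η x := by
      have := abs_sub_abs_le_abs_sub (u x) (u0 C' η x)
      nlinarith
    have a5 : Real.exp (-(C' * ‖x‖)) ≤ Real.exp (-(C * ‖x‖)) :=
      Real.exp_le_exp.2 (neg_le_neg (mul_le_mul_of_nonneg_right hCC (norm_nonneg _)))
    rw [abs_mul, abs_of_pos (by positivity), inv_mul_le_iff₀ (by positivity)]
    calc _ ≤ 258 * (M * Real.exp (-(C * ‖x‖))) := a4.trans (by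
          gcongr; exact (hdec x).trans (by gcongr))
      _ = _ := by ring
  · have := hw φ hφ hc
    have e : ∀ x, -((258 * M)⁻¹ * u x * Lap φ x) + V x * ((258 * M)⁻¹ * u x) * φ x =
        (258 * M)⁻¹ * (-(u x * Lap φ x) + V x * u x * φ x) := fun x => by ring
    simp only [e]
    rw [integral_const_mul, this, mul_zero]
  · have hb : volume (Metric.ball (0 : E4) 1) = 0 := by
      refine measure_mono_null (fun x hx => ?_) (ae_iff.1 hae)
      have a1 : ‖x‖ < 1 := by simpa using hx
      have a2 : R η x ≤ 2 := by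
        have b1 := R_sq η x
        have b2 := R_pos η x
        have b3 : η ^ 4 * ‖x‖ ^ 2 ≤ 1 :=
          mul_le_one₀ (pow_le_one₀ hη.le hη1) (by positivity) (pow_le_one₀ (norm_nonneg _) a1.le)
        nlinarith
      have a3 := hu x
      rw [u0_inner C' a2, AA_one C' (a2.trans (by norm_num))] at a3
      have a4 := (abs_le.1 a3).1
      have a5 : u x ≠ 0 := (show 0 < u x by linarith).ne'
      exact mul_ne_zero (by positivity) a5
    exact (Metric.measure_ball_pos volume (0 : E4) one_pos).ne' hb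

end Pool.Agent.H198Z.Landis
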